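import Mathlib

/-!
The area of the image of a compact set under a map to the plane whose components have given
pointwise Lipschitz constants.
-/

set_option autoImplicit false
set_option linter.unusedSectionVars false

open MeasureTheory Set Filter Topology Metric
open scoped ENNReal NNReal

namespace Pool.Agent.H250.MS

variable {X : Type*} [MetricSpace X] [MeasurableSpace X] [BorelSpace X]

theorem area_const {A : Set X} {U V : X → ℝ} {a b : ℝ} (ha : 0 < a) (hb : 0 < b)
    (hU : ∀ x ∈ A, ∀ y ∈ A, |U x - U y| ≤ a * dist x y)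
    (hV : ∀ x ∈ A, ∀ y ∈ A, |V x - V y| ≤ b * dist x y) :
    volume ((fun x => (U x, V x)) '' A) ≤ ENNReal.ofReal (a * b) * μH[2] A := by
  set G : X → ℝ × ℝ := fun x => (U x / a, V x / b) with hG
  have hGL : LipschitzOnWith 1 G A := by
    refine LipschitzOnWith.of_dist_le_mul fun x hx y hy => ?_
    rw [NNReal.coe_one, one_mul, Prod.dist_eq]
    simp only [hG, Real.dist_eq]
    refine max_le ?_ ?_
    · rw [← sub_div, abs_div, abs_of_pos ha, div_le_iff₀ ha]
      linarith [hU x hx y hy]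
    · rw [← sub_div, abs_div, abs_of_pos hb, div_le_iff₀ hb]
      linarith [hV x hx y hy]
  have h1 := hGL.hausdorffMeasure_image_le (d := 2) (by norm_num)
  set T : (ℝ × ℝ) →ₗ[ℝ] (ℝ × ℝ) := LinearMap.prodMap (a • LinearMap.id) (b • LinearMap.id) with hT
  have hdet : LinearMap.det T = a * b := by
    rw [hT, LinearMap.det_prodMap]
    simp
  have himg : (fun x => (U x, V x)) '' A = T '' (G '' A) := by
    rw [image_image]
    refine image_congr fun x _ => ?_
    simp only [hT, hG, LinearMap.prodMap_apply, LinearMap.smul_apply, LinearMap.id_apply, smul_eq_mul]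
    rw [mul_div_cancel₀ _ ha.ne', mul_div_cancel₀ _ hb.ne']
  rw [himg, Measure.addHaar_image_linearMap, hdet, abs_of_pos (by positivity)]
  gcongr
  rw [← hausdorffMeasure_prod_real]
  simpa using h1

theorem area_piece {A : Set X} (hA : MeasurableSet A) {U V w₁ w₂ : X → ℝ} (hw₁ : Measurable w₁)
    (hw₂ : Measurable w₂) (h₁ : ∀ x, 0 ≤ w₁ x) (h₂ : ∀ x, 0 ≤ w₂ x)
    (hU : ∀ x ∈ A, ∀ y ∈ A, |U x - U y| ≤ max (w₁ x) (w₁ y) * dist x y)
    (hV : ∀ x ∈ A, ∀ y ∈ A, |V x - V y| ≤ max (w₂ x) (w₂ y) * dist x y) {ε : ℝ} (hε : 0 < ε) :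
    volume ((fun x => (U x, V x)) '' A) ≤
      ∫⁻ x in A, ENNReal.ofReal ((w₁ x + ε) * (w₂ x + ε)) ∂(μH[2] : Measure X) := by
  set P : ℕ × ℕ → Set X := fun i => A ∩ ({x | ⌊w₁ x / ε⌋₊ = i.1} ∩ {x | ⌊w₂ x / ε⌋₊ = i.2}) with hP
  have hPm : ∀ i, MeasurableSet (P i) := by
    intro i
    refine hA.inter (MeasurableSet.inter ?_ ?_)
    · exact (Nat.measurable_floor.comp (hw₁.div_const ε)) (measurableSet_singleton i.1)
    · exact (Nat.measurable_floor.comp (hw₂.div_const ε)) (measurableSet_singleton i.2)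
  have hPd : Pairwise (Function.onFun Disjoint P) := by
    intro i j hij
    rw [Function.onFun, Set.disjoint_left]
    rintro x ⟨_, h1, h2⟩ ⟨_, h3, h4⟩
    apply hij
    simp only [mem_ofPred_eq] at h1 h2 h3 h4
    exact Prod.ext (h1.symm.trans h3) (h2.symm.trans h4)
  have hPU : ⋃ i, P i = A := by
    ext x
    rw [mem_iUnion]
    constructor
    · rintro ⟨i, hi⟩; exact hi.1
    · intro hx
      exact ⟨(⌊w₁ x / ε⌋₊, ⌊w₂ x / ε⌋₊), hx, rfl, rfl⟩
  have hupper : ∀ (w : X → ℝ) (_ : ∀ x, 0 ≤ w x) (n : ℕ) (x : X), ⌊w x / ε⌋₊ = n →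
      w x ≤ ((n : ℝ) + 1) * ε ∧ ((n : ℝ) + 1) * ε ≤ w x + ε := by
    intro w hw n x hn
    have h1 := Nat.floor_le (div_nonneg (hw x) hε.le)
    have h2 := Nat.lt_floor_add_one (w x / ε)
    rw [hn] at h1 h2
    rw [le_div_iff₀ hε] at h1
    rw [div_lt_iff₀ hε] at h2
    exact ⟨h2.le, by linarith⟩
  calc volume ((fun x => (U x, V x)) '' A) = volume (⋃ i, (fun x => (U x, V x)) '' (P i)) := by
        rw [← image_iUnion, hPU]
    _ ≤ ∑' i, volume ((fun x => (U x, V x)) '' (P i)) := measure_iUnion_le _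
    _ ≤ ∑' i, ∫⁻ x in P i, ENNReal.ofReal ((w₁ x + ε) * (w₂ x + ε)) ∂(μH[2] : Measure X) := by
        refine ENNReal.tsum_le_tsum fun i => ?_
        have ha : 0 < ((i.1 : ℝ) + 1) * ε := by positivity
        have hb : 0 < ((i.2 : ℝ) + 1) * ε := by positivity
        refine (area_const ha hb ?_ ?_).trans ?_
        · intro x hx y hy
          refine (hU x hx.1 y hy.1).trans ?_
          gcongr
          exact max_le (hupper w₁ h₁ i.1 x hx.2.1).1 (hupper w₁ h₁ i.1 y hy.2.1).1
        · intro x hx y hy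
          refine (hV x hx.1 y hy.1).trans ?_
          gcongr
          exact max_le (hupper w₂ h₂ i.2 x hx.2.2).1 (hupper w₂ h₂ i.2 y hy.2.2).1
        · rw [← setLIntegral_const]
          refine setLIntegral_mono' (hPm i) fun x hx => ?_
          apply ENNReal.ofReal_le_ofReal
          have e1 := (hupper w₁ h₁ i.1 x hx.2.1).2
          have e2 := (hupper w₂ h₂ i.2 x hx.2.2).2
          have e3 := h₁ x
          gcongr
    _ = ∫⁻ x in A, ENNReal.ofReal ((w₁ x + ε) * (w₂ x + ε)) ∂(μH[2] : Measure X) := by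
        rw [← lintegral_iUnion hPm hPd, hPU]

theorem area_le {K : Set X} (hK : IsCompact K) {U V w₁ w₂ : X → ℝ} (hw₁ : Measurable w₁)
    (hw₂ : Measurable w₂) (h₁ : ∀ x, 0 ≤ w₁ x) (h₂ : ∀ x, 0 ≤ w₂ x) {δ : ℝ} (hδ : 0 < δ)
    (hU : ∀ x ∈ K, ∀ y ∈ K, dist x y ≤ δ → |U x - U y| ≤ max (w₁ x) (w₁ y) * dist x y)
    (hV : ∀ x ∈ K, ∀ y ∈ K, dist x y ≤ δ → |V x - V y| ≤ max (w₂ x) (w₂ y) * dist x y)
    {ε : ℝ} (hε : 0 < ε) :
    volume ((fun x => (U x, V x)) '' K) ≤
      ∫⁻ x in K, ENNReal.ofReal ((w₁ x + ε) * (w₂ x + ε)) ∂(μH[2] : Measure X) := by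
  classical
  have key : ∀ (T : Finset X) (A : Set X), MeasurableSet A → A ⊆ K → A ⊆ ⋃ a ∈ T, ball a (δ / 2) →
      volume ((fun x => (U x, V x)) '' A) ≤
        ∫⁻ x in A, ENNReal.ofReal ((w₁ x + ε) * (w₂ x + ε)) ∂(μH[2] : Measure X) := by
    intro T
    induction T using Finset.induction_on with
    | empty =>
      intro A _ _ hA
      have : A = ∅ := by simpa using hA
      simp [this]
    | insert a T _ ih =>
      intro A hAm hAK hA
      have hsplit : A = (A ∩ ball a (δ / 2)) ∪ (A \ ball a (δ / 2)) := (inter_union_sdiff _ _).symm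
      have hb : volume ((fun x => (U x, V x)) '' (A ∩ ball a (δ / 2))) ≤
          ∫⁻ x in A ∩ ball a (δ / 2), ENNReal.ofReal ((w₁ x + ε) * (w₂ x + ε)) ∂(μH[2] : Measure X) := by
        have hd : ∀ x ∈ A ∩ ball a (δ / 2), ∀ y ∈ A ∩ ball a (δ / 2), dist x y ≤ δ := by
          rintro x ⟨_, hx⟩ y ⟨_, hy⟩
          have h3 : dist x a < δ / 2 := hx
          have h4 : dist y a < δ / 2 := hy
          have := dist_triangle_right x y a
          linarith
        exact area_piece (hAm.inter measurableSet_ball) hw₁ hw₂ h₁ h₂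
          (fun x hx y hy => hU x (hAK hx.1) y (hAK hy.1) (hd x hx y hy))
          (fun x hx y hy => hV x (hAK hx.1) y (hAK hy.1) (hd x hx y hy)) hε
      have hc := ih (A \ ball a (δ / 2)) (hAm.diff measurableSet_ball) (sdiff_subset.trans hAK) (by
        rintro x ⟨hx, hxn⟩
        have := hA hx
        rw [Finset.set_biUnion_insert] at this
        exact this.resolve_left hxn)
      calc volume ((fun x => (U x, V x)) '' A)
          = volume ((fun x => (U x, V x)) '' (A ∩ ball a (δ / 2)) ∪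
              (fun x => (U x, V x)) '' (A \ ball a (δ / 2))) := by rw [← image_union, ← hsplit]
        _ ≤ _ := measure_union_le _ _
        _ ≤ _ := add_le_add hb hc
        _ = ∫⁻ x in A, ENNReal.ofReal ((w₁ x + ε) * (w₂ x + ε)) ∂(μH[2] : Measure X) := by
            rw [← lintegral_union (hAm.diff measurableSet_ball) (by
              rw [Set.disjoint_left]; rintro x ⟨_, h⟩ ⟨_, h'⟩; exact h' h), ← hsplit]
  obtain ⟨T, _, hT⟩ := hK.elim_nhds_subcover (fun x => ball x (δ / 2))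
    (fun x _ => ball_mem_nhds x (by positivity))
  exact key T K hK.measurableSet Subset.rfl hT

end Pool.Agent.H250.MS
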