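import Mathlib

/-!
Almost every point of a set of finite Hausdorff 2-measure has bounded upper density.
-/

set_option autoImplicit false
set_option linter.unusedSectionVars false

open MeasureTheory Set Filter Topology Metric
open scoped ENNReal NNReal

namespace Pool.Agent.H250.MS

variable {X : Type*} [MetricSpace X] [MeasurableSpace X] [BorelSpace X]

theorem ediam_ball_le_ofReal (x : X) (r : ℝ) : ediam (ball x r) ≤ ENNReal.ofReal (2 * r) := by
  refine ediam_le_of_forall_dist_le fun a ha b hb => ?_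
  have h1 : dist a x < r := ha
  have h2 : dist b x < r := hb
  have h3 := dist_triangle_right a b x
  linarith

/-- The set of the points of `K` of large upper density. -/
def Bad (K : Set X) : Set X :=
  {x | x ∈ K ∧ ∃ᶠ r in 𝓝[>] (0:ℝ),
    200 * ENNReal.ofReal (r ^ 2) < ((μH[2] : Measure X).restrict K) (ball x r)}

theorem bad_null {K : Set X} (hK : MeasurableSet K) (hfin : μH[2] K ≠ ∞) :
    μH[2] (Bad K) = 0 := by
  classical
  set ν : Measure X := (μH[2] : Measure X).restrict K with hν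
  have : IsFiniteMeasure ν := ⟨by rw [hν, Measure.restrict_apply_univ]; exact lt_top_iff_ne_top.2 hfin⟩
  set E : Set X := Bad K with hE
  have hEK : E ⊆ K := fun x hx => hx.1
  have key : ∀ U : Set X, IsOpen U → E ⊆ U → μH[2] E ≤ 2⁻¹ * ν U := by
    intro U hU hEU
    let T : ℕ → Set (X × ℝ) := fun n => {p | p.1 ∈ E ∧ 0 < p.2 ∧ p.2 < 1 / (10 * ((n : ℝ) + 1)) ∧
      ball p.1 p.2 ⊆ U ∧ 200 * ENNReal.ofReal (p.2 ^ 2) < ν (ball p.1 p.2)}
    have hT : ∀ n, ∀ x ∈ E, ∃ r, (x, r) ∈ T n := by
      intro n x hx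
      obtain ⟨ε, hε, hεU⟩ := Metric.isOpen_iff.1 hU x (hEU hx)
      have h1 : ∀ᶠ r in 𝓝[>] (0:ℝ), 0 < r ∧ r < min ε (1 / (10 * ((n : ℝ) + 1))) := by
        have : Ioo (0:ℝ) (min ε (1 / (10 * ((n : ℝ) + 1)))) ∈ 𝓝[>] (0:ℝ) :=
          Ioo_mem_nhdsGT (lt_min hε (by positivity))
        filter_upwards [this] with r hr using hr
      obtain ⟨r, h2, h3, h4⟩ := (hx.2.and_eventually h1).exists
      refine ⟨r, hx, h3, h4.trans_le (min_le_right _ _), ?_, h2⟩
      exact (ball_subset_ball (h4.le.trans (min_le_left _ _))).trans hεU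
    have hV : ∀ n, ∃ u ⊆ T n, (u.PairwiseDisjoint fun p : X × ℝ => ball p.1 p.2) ∧
        ∀ a ∈ T n, ∃ b ∈ u, ball a.1 a.2 ⊆ ball b.1 (5 * b.2) := fun n =>
      Vitali.exists_disjoint_subfamily_covering_enlargement_ball (T n)
        (fun p => p.1) (fun p => p.2) (1 / (10 * ((n : ℝ) + 1))) (fun p hp => hp.2.2.1.le) 5
        (by norm_num)
    choose u huT hdisj hcov using hV
    have hcount : ∀ n, (u n).Countable := by
      intro n
      have h1 := Measure.countable_meas_pos_of_disjoint_iUnion (μ := ν)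
        (As := fun p : u n => ball (p : X × ℝ).1 (p : X × ℝ).2) (fun _ => measurableSet_ball)
        (fun a b hab => hdisj n a.2 b.2 (fun h => hab (Subtype.ext h)))
      have h2 : {i : u n | 0 < ν (ball (i : X × ℝ).1 (i : X × ℝ).2)} = univ := by
        ext p
        simp only [mem_ofPred_eq, mem_univ, iff_true]
        exact bot_le.trans_lt (huT n p.2).2.2.2.2
      rw [h2] at h1
      exact (countable_univ_iff.1 h1).to_set
    have : ∀ n, Countable (u n) := fun n => (hcount n).to_subtype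
    have h1 := Measure.hausdorffMeasure_le_liminf_tsum (ι := fun n => u n) 2 E (l := atTop)
      (fun n : ℕ => ENNReal.ofReal (1 / ((n : ℝ) + 1)))
      (by
        have := ENNReal.tendsto_ofReal (tendsto_one_div_add_atTop_nhds_zero_nat (𝕜 := ℝ))
        simpa using this)
      (fun n p => ball (p : X × ℝ).1 (5 * (p : X × ℝ).2))
      (Eventually.of_forall fun n p => by
        have h2 := (huT n p.2).2.2.1
        have h3 : 0 < (p : X × ℝ).2 := (huT n p.2).2.1
        refine (ediam_ball_le_ofReal _ _).trans ?_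
        apply ENNReal.ofReal_le_ofReal
        have h4 : 1 / (10 * ((n : ℝ) + 1)) = (1 / 10) * (1 / ((n : ℝ) + 1)) := by field_simp
        rw [h4] at h2
        linarith)
      (Eventually.of_forall fun n x hx => by
        obtain ⟨r, hr⟩ := hT n x hx
        obtain ⟨b, hb, hsub⟩ := hcov n _ hr
        exact mem_iUnion.2 ⟨⟨b, hb⟩, hsub (mem_ball_self hr.2.1)⟩)
    refine h1.trans ?_
    have h2 : ∀ n, ∑' p : u n, ediam (ball (p : X × ℝ).1 (5 * (p : X × ℝ).2)) ^ (2:ℝ) ≤ 2⁻¹ * ν U := by
      intro n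
      calc ∑' p : u n, ediam (ball (p : X × ℝ).1 (5 * (p : X × ℝ).2)) ^ (2:ℝ)
          ≤ ∑' p : u n, 2⁻¹ * ν (ball (p : X × ℝ).1 (p : X × ℝ).2) := by
            refine ENNReal.tsum_le_tsum fun p => ?_
            have h3 : 0 < (p : X × ℝ).2 := (huT n p.2).2.1
            have h4 := (huT n p.2).2.2.2.2
            calc ediam (ball (p : X × ℝ).1 (5 * (p : X × ℝ).2)) ^ (2:ℝ)
                ≤ (ENNReal.ofReal (10 * (p : X × ℝ).2)) ^ (2:ℝ) := by
                  gcongr
                  refine (ediam_ball_le_ofReal _ _).trans (le_of_eq ?_)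
                  congr 1; ring
              _ = 2⁻¹ * (200 * ENNReal.ofReal ((p : X × ℝ).2 ^ 2)) := by
                  rw [ENNReal.rpow_ofNat, ← ENNReal.ofReal_pow (by positivity), mul_pow,
                    ENNReal.ofReal_mul (by norm_num), ← mul_assoc]
                  congr 1
                  rw [show (200 : ℝ≥0∞) = 2 * 100 by norm_num, ← mul_assoc,
                    ENNReal.inv_mul_cancel (by norm_num) (by norm_num), one_mul]
                  norm_num
              _ ≤ 2⁻¹ * ν (ball (p : X × ℝ).1 (p : X × ℝ).2) := by gcongr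
        _ = 2⁻¹ * ∑' p : u n, ν (ball (p : X × ℝ).1 (p : X × ℝ).2) := ENNReal.tsum_mul_left
        _ = 2⁻¹ * ν (⋃ p ∈ u n, ball p.1 p.2) := by
            rw [measure_biUnion (hcount n) (hdisj n) (fun _ _ => measurableSet_ball)]
        _ ≤ 2⁻¹ * ν U := by
            gcongr
            exact iUnion₂_subset fun p hp => (huT n hp).2.2.2.1
    exact (liminf_le_liminf (Eventually.of_forall h2)).trans (by simp)
  have hle : μH[2] E ≤ 2⁻¹ * μH[2] E := by
    have h1 : ν E = μH[2] E := by
      rw [hν, Measure.restrict_apply' hK, inter_eq_self_of_subset_left hEK]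
    have h2 : ∀ ε : ℝ≥0, 0 < ε → μH[2] E ≤ 2⁻¹ * μH[2] E + ε := by
      intro ε hε
      obtain ⟨U, hEU, hUo, hU⟩ := E.exists_isOpen_le_add ν (ε := ε) (by exact_mod_cast hε.ne')
      refine (key U hUo hEU).trans ?_
      rw [h1] at hU
      calc 2⁻¹ * ν U ≤ 2⁻¹ * (μH[2] E + ε) := by gcongr
        _ = 2⁻¹ * μH[2] E + 2⁻¹ * ε := by rw [mul_add]
        _ ≤ 2⁻¹ * μH[2] E + 1 * ε := by gcongr; exact ENNReal.inv_le_one.2 (by norm_num)
        _ = _ := by rw [one_mul]
    exact ENNReal.le_of_forall_pos_le_add fun ε hε _ => h2 ε hε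
  have hEfin : μH[2] E ≠ ∞ := ne_top_of_le_ne_top hfin (measure_mono hEK)
  by_contra hne
  have h3 : 2⁻¹ * μH[2] E < μH[2] E := by
    rw [← ENNReal.div_eq_inv_mul]
    exact ENNReal.half_lt_self hne hEfin
  exact absurd hle (not_le.2 h3)

end Pool.Agent.H250.MS
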