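import Mathlib

/-!
Rough curves, the distance function which they define, and limits of rough curves.
-/

set_option autoImplicit false
set_option linter.unusedSectionVars false

open MeasureTheory Set Filter Topology Metric
open scoped ENNReal NNReal

namespace Pool.Agent.H250.MS

variable {X : Type*} [MetricSpace X] [MeasurableSpace X] [BorelSpace X]

/-- `c` is a `δ`-rough curve in `K` of length `L` which starts in `E`. -/
def Rough (K E : Set X) (δ L : ℝ) (c : ℝ → X) : Prop :=
  Measurable c ∧ (∀ t ∈ Icc 0 L, c t ∈ K) ∧ c 0 ∈ E ∧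
    ∀ s t, 0 ≤ s → s ≤ t → t ≤ L → dist (c s) (c t) ≤ (t - s) + δ

/-- The distance to `E` with respect to `w`, cut off at `1`. -/
noncomputable def Dst (K E : Set X) (δ : ℝ) (w : X → ℝ≥0∞) (y : X) : ℝ≥0∞ :=
  min 1 (⨅ (L : ℝ) (c : ℝ → X) (_ : 0 ≤ L) (_ : Rough K E δ L c) (_ : c L = y),
    ∫⁻ t in Ico 0 L, w (c t))

theorem Dst_le_one (K E : Set X) (δ : ℝ) (w : X → ℝ≥0∞) (y : X) : Dst K E δ w y ≤ 1 :=
  min_le_left _ _

theorem Dst_zero {K E : Set X} {δ : ℝ} (hδ : 0 ≤ δ) (hEK : E ⊆ K) (w : X → ℝ≥0∞) {y : X}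
    (hy : y ∈ E) : Dst K E δ w y = 0 := by
  have h : Rough K E δ 0 (fun _ => y) :=
    ⟨measurable_const, fun _ _ => hEK hy, hy, fun s t _ h1 _ => by
      rw [dist_self]; linarith⟩
  refine le_antisymm ?_ bot_le
  unfold Dst
  refine (min_le_right _ _).trans ?_
  refine iInf_le_of_le 0 (iInf_le_of_le (fun _ => y) (iInf_le_of_le le_rfl (iInf_le_of_le h
    (iInf_le_of_le rfl ?_))))
  simp

theorem rough_extend {K E : Set X} {δ L : ℝ} (hδ : 0 ≤ δ) {c : ℝ → X} (hL : 0 ≤ L)
    (hc : Rough K E δ L c) {y : X} (hyK : y ∈ K) (hxy : dist (c L) y ≤ δ) (hne : c L ≠ y)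
    (w : X → ℝ≥0∞) :
    ∃ c' : ℝ → X, Rough K E δ (L + dist (c L) y) c' ∧ c' (L + dist (c L) y) = y ∧
      ∫⁻ t in Ico 0 (L + dist (c L) y), w (c' t) =
        (∫⁻ t in Ico 0 L, w (c t)) + w (c L) * ENNReal.ofReal (dist (c L) y) := by
  classical
  obtain ⟨hm, hK, hE, hd⟩ := hc
  set x := c L with hx
  set d := dist x y with hd'
  have hd0 : 0 < d := dist_pos.2 hne
  set c' : ℝ → X := fun t => if t < L then c t else if t < L + d then x else y with hc'
  have e1 : ∀ t, t < L → c' t = c t := fun t ht => by simp only [hc', if_pos ht]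
  have e2 : ∀ t, L ≤ t → t < L + d → c' t = x := fun t h1 h2 => by
    simp only [hc', if_neg (not_lt.2 h1), if_pos h2]
  have e3 : c' (L + d) = y := by
    simp only [hc', if_neg (not_lt.2 (le_add_of_nonneg_right hd0.le)), lt_irrefl, if_false]
  refine ⟨c', ⟨?_, ?_, ?_, ?_⟩, e3, ?_⟩
  · exact Measurable.ite measurableSet_Iio hm (Measurable.ite measurableSet_Iio measurable_const
      measurable_const)
  · intro t ht
    rcases lt_or_ge t L with h1 | h1
    · rw [e1 t h1]; exact hK t ⟨ht.1, h1.le⟩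
    · rcases lt_or_ge t (L + d) with h2 | h2
      · rw [e2 t h1 h2]; exact hK L ⟨hL, le_rfl⟩
      · rw [show t = L + d from le_antisymm ht.2 h2, e3]; exact hyK
  · rcases eq_or_lt_of_le hL with h1 | h1
    · rw [e2 0 (by rw [← h1]) (by rw [← h1]; linarith), hx, ← h1]; exact hE
    · rw [e1 0 h1]; exact hE
  · intro s t hs hst ht
    rcases lt_or_ge t L with h1 | h1
    · rw [e1 t h1, e1 s (hst.trans_lt h1)]; exact hd s t hs hst h1.le
    · rcases lt_or_ge s L with h3 | h3
      · have h5 := hd s L hs h3.le le_rfl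
        rw [← hx] at h5
        rcases lt_or_ge t (L + d) with h2 | h2
        · rw [e1 s h3, e2 t h1 h2]; linarith
        · have h4 : t = L + d := le_antisymm ht h2
          rw [e1 s h3, h4, e3]
          have h6 := dist_triangle (c s) x y
          linarith
      · rcases lt_or_ge t (L + d) with h2 | h2
        · rw [e2 t h1 h2, e2 s h3 (hst.trans_lt h2), dist_self]; linarith
        · have h4 : t = L + d := le_antisymm ht h2
          rcases lt_or_ge s (L + d) with h7 | h7
          · rw [e2 s h3 h7, h4, e3]; linarith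
          · have h8 : s = L + d := le_antisymm (hst.trans ht) h7
            rw [h8, h4, dist_self]; linarith
  · have hsplit : Ico 0 (L + d) = Ico 0 L ∪ Ico L (L + d) :=
      (Ico_union_Ico_eq_Ico hL (by linarith)).symm
    have A1 : ∫⁻ t in Ico 0 L, w (c' t) = ∫⁻ t in Ico 0 L, w (c t) :=
      setLIntegral_congr_fun measurableSet_Ico fun t ht => by
        show w (c' t) = w (c t)
        rw [e1 t ht.2]
    have A2 : ∫⁻ t in Ico L (L + d), w (c' t) = w x * ENNReal.ofReal d := by
      rw [setLIntegral_congr_fun (g := fun _ => w x) measurableSet_Ico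
        (fun t ht => by
          show w (c' t) = w x
          rw [e2 t ht.1 ht.2]), setLIntegral_const, Real.volume_Ico]
      congr 2; ring
    rw [hsplit, lintegral_union measurableSet_Ico (by
      rw [Set.disjoint_left]; rintro t h1 h2; exact absurd h1.2 (not_lt.2 h2.1)), A1, A2]

theorem Dst_le_add {K E : Set X} {δ : ℝ} (hδ : 0 ≤ δ) (w : X → ℝ≥0∞) {x y : X}
    (hyK : y ∈ K) (hxy : dist x y ≤ δ) :
    Dst K E δ w y ≤ Dst K E δ w x + w x * ENNReal.ofReal (dist x y) := by
  rcases eq_or_ne x y with rfl | hne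
  · exact le_self_add
  conv_rhs => rw [Dst]
  rw [← min_add_add_right]
  refine le_min ?_ ?_
  · exact (Dst_le_one _ _ _ _ _).trans le_self_add
  · simp only [ENNReal.iInf_add]
    refine le_iInf fun L => le_iInf fun c => le_iInf fun hL => le_iInf fun hc => le_iInf fun hcL => ?_
    subst hcL
    obtain ⟨c', h1, h2, h3⟩ := rough_extend hδ hL hc hyK hxy hne w
    rw [← h3]
    refine (min_le_right _ _).trans ?_
    exact iInf_le_of_le _ (iInf_le_of_le c' (iInf_le_of_le (by positivity) (iInf_le_of_le h1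
      (iInf_le_of_le h2 le_rfl))))

/-- Limits of rough curves. -/
theorem rough_limit {K E F : Set X} (hK : IsCompact K) (hE : IsClosed E) (hF : IsClosed F)
    {B : ℝ} {δ : ℕ → ℝ} (hδ : Tendsto δ atTop (𝓝 0)) {L : ℕ → ℝ} {c : ℕ → ℝ → X}
    (hL0 : ∀ k, 0 ≤ L k) (hLB : ∀ k, L k ≤ B) (hc : ∀ k, Rough K E (δ k) (L k) (c k))
    (hcF : ∀ k, c k (L k) ∈ F) :
    ∃ (Li : ℝ) (γ : ℝ → X) (φ : ℕ → ℕ), StrictMono φ ∧ 0 ≤ Li ∧ LipschitzWith 1 γ ∧
      (∀ t, γ t ∈ K) ∧ γ 0 ∈ E ∧ γ Li ∈ F ∧ Tendsto (fun k => L (φ k)) atTop (𝓝 Li) ∧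
      ∀ t ∈ Ioo 0 Li, Tendsto (fun k => c (φ k) t) atTop (𝓝 (γ t)) := by
  classical
  -- clamped curves
  set cl : ℕ → ℝ → ℝ := fun k t => max 0 (min t (L k)) with hcl
  set g : ℕ → ℝ → X := fun k t => c k (cl k t) with hg
  have hclm : ∀ k t, cl k t ∈ Icc 0 (L k) := fun k t =>
    ⟨le_max_left _ _, max_le (hL0 k) (min_le_right _ _)⟩
  have hcld : ∀ k s t, |cl k s - cl k t| ≤ |s - t| := by
    intro k s t
    simp only [hcl]
    have h1 := abs_max_sub_max_le_abs (min s (L k)) (min t (L k)) 0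
    have h2 := abs_min_sub_min_le_max s (L k) t (L k)
    rw [sub_self, abs_zero, max_eq_left (abs_nonneg _)] at h2
    rw [max_comm, max_comm 0 (min t (L k))]
    exact h1.trans h2
  have hgd : ∀ k s t, dist (g k s) (g k t) ≤ |s - t| + δ k := by
    intro k s t
    have key : ∀ a b, a ∈ Icc 0 (L k) → b ∈ Icc 0 (L k) → a ≤ b →
        dist (c k a) (c k b) ≤ |a - b| + δ k := by
      intro a b ha hb hab
      have := (hc k).2.2.2 a b ha.1 hab hb.2
      rwa [abs_sub_comm, abs_of_nonneg (sub_nonneg.2 hab)]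
    rcases le_total (cl k s) (cl k t) with h | h
    · exact (key _ _ (hclm k s) (hclm k t) h).trans (by linarith [hcld k s t])
    · rw [dist_comm]
      exact (key _ _ (hclm k t) (hclm k s) h).trans (by
        have := hcld k t s
        rw [abs_sub_comm t s] at this
        linarith)
  have hgK : ∀ k t, g k t ∈ K := fun k t => (hc k).2.1 _ (hclm k t)
  -- a subsequence which converges at all rational points
  have hcomp : IsCompact ((Set.pi univ fun _ : ℚ => K) ×ˢ Icc (0:ℝ) B) :=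
    (isCompact_univ_pi fun _ => hK).prod isCompact_Icc
  obtain ⟨⟨a, Li⟩, ha, φ, hφ, hlim⟩ := hcomp.tendsto_subseq
    (x := fun k => ((fun q : ℚ => g k q), L k)) (fun k => ⟨fun q _ => hgK k q, hL0 k, hLB k⟩)
  have hlimL : Tendsto (fun k => L (φ k)) atTop (𝓝 Li) := (Prod.tendsto_iff _ _).1 hlim |>.2
  have hlimq : ∀ q : ℚ, Tendsto (fun k => g (φ k) q) atTop (𝓝 (a q)) := fun q =>
    (tendsto_pi_nhds.1 ((Prod.tendsto_iff _ _).1 hlim).1) q
  have hδφ : Tendsto (fun k => δ (φ k)) atTop (𝓝 0) := hδ.comp hφ.tendsto_atTop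
  have hcauchy : ∀ t : ℝ, CauchySeq fun k => g (φ k) t := by
    intro t
    rw [Metric.cauchySeq_iff']
    intro ε hε
    obtain ⟨q, hq1, hq2⟩ := exists_rat_btwn (show t < t + ε / 8 by linarith)
    have h1 : ∀ᶠ k in atTop, dist (g (φ k) q) (a q) < ε / 8 := (Metric.tendsto_nhds.1 (hlimq q)) _ (by positivity)
    have h2 : ∀ᶠ k in atTop, δ (φ k) < ε / 8 := (tendsto_order.1 hδφ).2 _ (by positivity)
    obtain ⟨N, hN⟩ := (h1.and h2).exists_forall_of_atTop
    refine ⟨N, fun n hn => ?_⟩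
    have b1 := hgd (φ n) t q
    have b2 := hgd (φ N) t q
    have habs : |t - q| < ε / 8 := by rw [abs_lt]; constructor <;> linarith
    have b3 := (hN n hn).1
    have b4 := (hN N le_rfl).1
    have b5 := (hN n hn).2
    have b6 := (hN N le_rfl).2
    have t1 := dist_triangle (g (φ n) t) (g (φ n) q) (g (φ N) t)
    have t2 := dist_triangle (g (φ n) q) (a q) (g (φ N) t)
    have t3 := dist_triangle_left (a q) (g (φ N) t) (g (φ N) q)
    rw [dist_comm (g (φ N) q) (g (φ N) t)] at t3
    linarith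
  have hex : ∀ t : ℝ, ∃ x ∈ K, Tendsto (fun k => g (φ k) t) atTop (𝓝 x) := fun t =>
    cauchySeq_tendsto_of_isComplete hK.isComplete (fun k => hgK _ _) (hcauchy t)
  choose γ hγK hγ using hex
  have hLip : LipschitzWith 1 γ := by
    refine LipschitzWith.of_dist_le_mul fun s t => ?_
    rw [NNReal.coe_one, one_mul, Real.dist_eq]
    have h1 : Tendsto (fun k => |s - t| + δ (φ k)) atTop (𝓝 (|s - t| + 0)) := tendsto_const_nhds.add hδφ
    rw [add_zero] at h1
    exact le_of_tendsto_of_tendsto' ((hγ s).dist (hγ t)) h1 fun k => hgd (φ k) s t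
  have hLi : 0 ≤ Li := ha.2.1
  refine ⟨Li, γ, φ, hφ, hLi, hLip, hγK, ?_, ?_, hlimL, ?_⟩
  · refine hE.mem_of_tendsto (hγ 0) (Eventually.of_forall fun k => ?_)
    have : cl (φ k) 0 = 0 := by simp only [hcl, min_eq_left (hL0 _), max_self]
    simp only [hg, this]
    exact (hc _).2.2.1
  · have h1 : Tendsto (fun k => g (φ k) (L (φ k))) atTop (𝓝 (γ Li)) := by
      rw [tendsto_iff_dist_tendsto_zero]
      have h2 : Tendsto (fun k => (|L (φ k) - Li| + δ (φ k)) + dist (g (φ k) Li) (γ Li)) atTop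
          (𝓝 ((|Li - Li| + 0) + 0)) :=
        (((hlimL.sub_const Li).abs).add hδφ).add (tendsto_iff_dist_tendsto_zero.1 (hγ Li))
      rw [sub_self, abs_zero, add_zero, add_zero] at h2
      refine squeeze_zero (fun _ => dist_nonneg) (fun k => ?_) h2
      exact (dist_triangle _ (g (φ k) Li) _).trans (by gcongr; exact hgd _ _ _)
    refine hF.mem_of_tendsto h1 (Eventually.of_forall fun k => ?_)
    have : cl (φ k) (L (φ k)) = L (φ k) := by simp only [hcl, min_self, max_eq_right (hL0 _)]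
    simp only [hg, this]
    exact hcF _
  · intro t ht
    refine (hγ t).congr' ?_
    filter_upwards [(tendsto_order.1 hlimL).1 t ht.2] with k hk
    have : cl (φ k) t = t := by simp only [hcl, min_eq_left hk.le, max_eq_right ht.1.le]
    simp only [hg, this]

end Pool.Agent.H250.MS
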