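import Mathlib

/-!
Extremal functions: a convex set of nonnegative functions has an `L²`-minimal element `ρ₀` in its
closure, and the variational inequality `M ≤ ∫ ρ ρ₀` holds for all its members.
-/

set_option autoImplicit false

open MeasureTheory Set Filter Topology Metric
open scoped ENNReal NNReal

namespace Pool.Agent.H250.MS

variable {X : Type*} [MeasurableSpace X]

theorem exists_extremal (ν : Measure X) (A : Set (X → ℝ≥0∞))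
    (hmeas : ∀ ρ ∈ A, Measurable ρ)
    (hconv : ∀ ρ₁ ∈ A, ∀ ρ₂ ∈ A, ∀ a b : ℝ≥0∞, a + b = 1 → (fun x => a * ρ₁ x + b * ρ₂ x) ∈ A)
    (M : ℝ≥0∞) (hM : ∀ ρ ∈ A, M ≤ ∫⁻ x, ρ x ^ 2 ∂ν)
    (hM' : ∀ c, M < c → ∃ ρ ∈ A, ∫⁻ x, ρ x ^ 2 ∂ν < c) (hfin : M ≠ ∞) :
    ∃ ρ₀ : X → ℝ≥0∞, Measurable ρ₀ ∧ ∫⁻ x, ρ₀ x ^ 2 ∂ν ≤ M ∧
      ∀ ρ ∈ A, ∫⁻ x, ρ x ^ 2 ∂ν ≠ ∞ → M ≤ ∫⁻ x, ρ x * ρ₀ x ∂ν := by
  classical
  -- the set in `L²`
  let K : Set (Lp ℝ 2 ν) := {f | ∃ ρ ∈ A, ∫⁻ x, ρ x ^ 2 ∂ν ≠ ∞ ∧ ∀ᵐ x ∂ν, f x = (ρ x).toReal}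
  have hae : ∀ ρ ∈ A, ∫⁻ x, ρ x ^ 2 ∂ν ≠ ∞ → ∀ᵐ x ∂ν, ρ x < ∞ := by
    intro ρ hρ hf
    have := ae_lt_top ((hmeas ρ hρ).pow_const 2) hf
    filter_upwards [this] with x hx
    by_contra hcon
    rw [not_lt, top_le_iff] at hcon
    simp [hcon] at hx
  have hmem : ∀ ρ ∈ A, ∫⁻ x, ρ x ^ 2 ∂ν ≠ ∞ → MemLp (fun x => (ρ x).toReal) 2 ν := by
    intro ρ hρ hf
    refine ⟨(hmeas ρ hρ).ennreal_toReal.aestronglyMeasurable, ?_⟩
    rw [eLpNorm_lt_top_iff_lintegral_rpow_enorm_lt_top (by norm_num) (by norm_num)]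
    refine lt_of_le_of_lt ?_ (lt_top_iff_ne_top.2 hf)
    refine lintegral_mono fun x => ?_
    simp only [ENNReal.toReal_ofNat, ENNReal.rpow_ofNat]
    gcongr
    rw [Real.enorm_eq_ofReal ENNReal.toReal_nonneg]
    exact ENNReal.ofReal_toReal_le
  have hnorm : ∀ f : Lp ℝ 2 ν, ∫⁻ x, ‖f x‖ₑ ^ 2 ∂ν = ENNReal.ofReal (‖f‖ ^ 2) := by
    intro f
    rw [Lp.norm_def, ← ENNReal.toReal_pow, ENNReal.ofReal_toReal (by
      exact ENNReal.pow_ne_top (Lp.eLpNorm_ne_top f))]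
    rw [eLpNorm_eq_lintegral_rpow_enorm_toReal (by norm_num) (by norm_num)]
    simp only [ENNReal.toReal_ofNat, ENNReal.rpow_ofNat]
    rw [← ENNReal.rpow_natCast, ← ENNReal.rpow_mul]
    norm_num
  have hKnorm : ∀ f : Lp ℝ 2 ν, ∀ ρ ∈ A, ∫⁻ x, ρ x ^ 2 ∂ν ≠ ∞ → (∀ᵐ x ∂ν, f x = (ρ x).toReal) →
      ENNReal.ofReal (‖f‖ ^ 2) = ∫⁻ x, ρ x ^ 2 ∂ν := by
    intro f ρ hρ hf hfe
    rw [← hnorm]
    refine lintegral_congr_ae ?_
    filter_upwards [hfe, hae ρ hρ hf] with x hx hx'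
    rw [hx, Real.enorm_eq_ofReal ENNReal.toReal_nonneg, ENNReal.ofReal_toReal hx'.ne]
  have hKne : K.Nonempty := by
    obtain ⟨ρ, hρ, hlt⟩ := hM' ∞ (lt_top_iff_ne_top.2 hfin)
    exact ⟨(hmem ρ hρ hlt.ne).toLp _, ρ, hρ, hlt.ne, (hmem ρ hρ hlt.ne).coeFn_toLp⟩
  have hKconv : Convex ℝ K := by
    rintro f ⟨ρ₁, h1, h1f, h1e⟩ g ⟨ρ₂, h2, h2f, h2e⟩ a b ha hb hab
    have hA : (fun x => ENNReal.ofReal a * ρ₁ x + ENNReal.ofReal b * ρ₂ x) ∈ A :=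
      hconv _ h1 _ h2 _ _ (by rw [← ENNReal.ofReal_add ha hb, hab, ENNReal.ofReal_one])
    have hfin' : ∫⁻ x, (ENNReal.ofReal a * ρ₁ x + ENNReal.ofReal b * ρ₂ x) ^ 2 ∂ν ≠ ∞ := by
      have hle : ∀ x, (ENNReal.ofReal a * ρ₁ x + ENNReal.ofReal b * ρ₂ x) ^ 2 ≤
          2 * ((ENNReal.ofReal a * ρ₁ x) ^ 2 + (ENNReal.ofReal b * ρ₂ x) ^ 2) := by
        intro x
        have := ENNReal.rpow_add_le_mul_rpow_add_rpow (ENNReal.ofReal a * ρ₁ x)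
          (ENNReal.ofReal b * ρ₂ x) (p := 2) (by norm_num)
        norm_num at this
        exact this
      refine ne_top_of_le_ne_top ?_ (lintegral_mono hle)
      rw [lintegral_const_mul' _ _ (by norm_num), lintegral_add_left
        (((hmeas _ h1).const_mul _).pow_const 2)]
      simp only [mul_pow]
      rw [lintegral_const_mul' _ _ (by finiteness), lintegral_const_mul' _ _ (by finiteness)]
      finiteness
    refine ⟨_, hA, hfin', ?_⟩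
    filter_upwards [h1e, h2e, hae _ h1 h1f, hae _ h2 h2f, Lp.coeFn_add (a • f) (b • g),
      Lp.coeFn_smul a f, Lp.coeFn_smul b g] with x e1 e2 t1 t2 c1 c2 c3
    rw [c1, Pi.add_apply, c2, c3, Pi.smul_apply, Pi.smul_apply, e1, e2, smul_eq_mul, smul_eq_mul,
      ENNReal.toReal_add (ENNReal.mul_ne_top (by finiteness) t1.ne)
        (ENNReal.mul_ne_top (by finiteness) t2.ne), ENNReal.toReal_mul, ENNReal.toReal_mul,
      ENNReal.toReal_ofReal ha, ENNReal.toReal_ofReal hb]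
  have hcl : Convex ℝ (closure K) := hKconv.closure
  obtain ⟨v, hv, hvmin⟩ := exists_norm_eq_iInf_of_complete_convex hKne.closure
    isClosed_closure.isComplete hcl 0
  have hinner := (norm_eq_iInf_iff_real_inner_le_zero hcl hv).1 hvmin
  have hvM : ENNReal.ofReal (‖v‖ ^ 2) ≤ M := by
    refine le_of_forall_gt fun c hc => ?_
    obtain ⟨ρ, hρ, hlt⟩ := hM' c hc
    have hne : ∫⁻ x, ρ x ^ 2 ∂ν ≠ ∞ := (hlt.trans_le le_top).ne
    set f := (hmem ρ hρ hne).toLp _ with hf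
    have hfK : f ∈ K := ⟨ρ, hρ, hne, (hmem ρ hρ hne).coeFn_toLp⟩
    have h1 : ‖v‖ ≤ ‖f‖ := by
      have h2 := hinner f (subset_closure hfK)
      rw [zero_sub, inner_neg_left, inner_sub_right, real_inner_self_eq_norm_sq] at h2
      have h3 := real_inner_le_norm v f
      have h4 : ‖v‖ ^ 2 ≤ ‖v‖ * ‖f‖ := by linarith
      by_contra hcon
      push Not at hcon
      have : 0 < ‖v‖ := lt_of_le_of_lt (norm_nonneg f) hcon
      nlinarith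
    calc ENNReal.ofReal (‖v‖ ^ 2) ≤ ENNReal.ofReal (‖f‖ ^ 2) := by gcongr
      _ = ∫⁻ x, ρ x ^ 2 ∂ν := hKnorm f ρ hρ hne (hmem ρ hρ hne).coeFn_toLp
      _ < c := hlt
  have hMv : M ≤ ENNReal.ofReal (‖v‖ ^ 2) := by
    have hclosed : IsClosed {w : Lp ℝ 2 ν | M ≤ ENNReal.ofReal (‖w‖ ^ 2)} := by
      apply isClosed_Ici.preimage (f := fun w : Lp ℝ 2 ν => ENNReal.ofReal (‖w‖ ^ 2))
      exact ENNReal.continuous_ofReal.comp (by fun_prop)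
    have hsub : K ⊆ {w : Lp ℝ 2 ν | M ≤ ENNReal.ofReal (‖w‖ ^ 2)} := by
      rintro f ⟨ρ, hρ, hf, hfe⟩
      simp only [mem_ofPred_eq]
      rw [hKnorm f ρ hρ hf hfe]
      exact hM ρ hρ
    exact closure_minimal hsub hclosed hv
  refine ⟨fun x => ‖v x‖ₑ, (Lp.stronglyMeasurable v).enorm, ?_, ?_⟩
  · rw [hnorm]; exact hvM
  · intro ρ hρ hne
    set f := (hmem ρ hρ hne).toLp _ with hf
    have hfK : f ∈ K := ⟨ρ, hρ, hne, (hmem ρ hρ hne).coeFn_toLp⟩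
    have h2 := hinner f (subset_closure hfK)
    rw [zero_sub, inner_neg_left, inner_sub_right, real_inner_self_eq_norm_sq] at h2
    have h3 : ‖v‖ ^ 2 ≤ inner ℝ v f := by linarith
    refine hMv.trans ((ENNReal.ofReal_le_ofReal h3).trans ?_)
    rw [L2.inner_def]
    have h4 : ‖∫ x, inner ℝ (v x) (f x) ∂ν‖ₑ ≤ ∫⁻ x, ‖inner ℝ (v x) (f x)‖ₑ ∂ν :=
      enorm_integral_le_lintegral_enorm _
    refine (Real.ofReal_le_enorm _).trans (h4.trans (lintegral_mono_ae ?_))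
    filter_upwards [(hmem ρ hρ hne).coeFn_toLp, hae ρ hρ hne] with x hx hx'
    have : f x = (ρ x).toReal := hx
    rw [this]
    simp only [RCLike.inner_apply, conj_trivial, enorm_mul]
    rw [Real.enorm_eq_ofReal ENNReal.toReal_nonneg, ENNReal.ofReal_toReal hx'.ne]

end Pool.Agent.H250.MS
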