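import Mathlib

/-!
Maximal functions over the balls `B(x,r)` with `ν (B(x,50r)) ≤ C r²`.
-/

set_option autoImplicit false
set_option linter.unusedSectionVars false

open MeasureTheory Set Filter Topology Metric
open scoped ENNReal NNReal

namespace Pool.Agent.H250.MS

variable {X : Type*} [MetricSpace X] [MeasurableSpace X] [BorelSpace X]

/-- The balls (given by centre and radius) which are good for the constant `C`. -/
def Good (ν : Measure X) (C : ℝ≥0∞) : Set (X × ℝ) :=
  {p | 0 < p.2 ∧ p.2 ≤ 1 ∧ ν (ball p.1 (50 * p.2)) ≤ C * ENNReal.ofReal (p.2 ^ 2)}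

/-- The quotient `r⁻² ∫_{B(x,10r)} f dν`. -/
noncomputable def Avg (ν : Measure X) (f : X → ℝ≥0∞) (p : X × ℝ) : ℝ≥0∞ :=
  (∫⁻ x in ball p.1 (10 * p.2), f x ∂ν) / ENNReal.ofReal (p.2 ^ 2)

/-- The maximal function over the good balls. -/
noncomputable def MF (ν : Measure X) (C : ℝ≥0∞) (f : X → ℝ≥0∞) (y : X) : ℝ≥0∞ :=
  ⨆ p ∈ Good ν C, (ball p.1 p.2).indicator (fun _ => Avg ν f p) y

theorem lsc_MF (ν : Measure X) (C : ℝ≥0∞) (f : X → ℝ≥0∞) : LowerSemicontinuous (MF ν C f) := by
  unfold MF
  refine lowerSemicontinuous_iSup fun p => lowerSemicontinuous_iSup fun _ => ?_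
  exact isOpen_ball.lowerSemicontinuous_indicator bot_le

theorem measurable_MF (ν : Measure X) (C : ℝ≥0∞) (f : X → ℝ≥0∞) : Measurable (MF ν C f) :=
  (lsc_MF ν C f).measurable

theorem le_MF {ν : Measure X} {C : ℝ≥0∞} {f : X → ℝ≥0∞} {p : X × ℝ} (hp : p ∈ Good ν C) {y : X}
    (hy : y ∈ ball p.1 p.2) : Avg ν f p ≤ MF ν C f y := by
  unfold MF
  refine le_trans ?_ (le_iSup₂ p hp)
  rw [indicator_of_mem hy]

/-- Weak type estimate. -/
theorem weak_MF (ν : Measure X) [IsFiniteMeasure ν] (C : ℝ≥0∞) (f : X → ℝ≥0∞) {t : ℝ≥0∞} (ht : 0 < t)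
    (ht' : t ≠ ∞) : ν {y | t < MF ν C f y} ≤ C / t * ∫⁻ x, f x ∂ν := by
  classical
  set T : Set (X × ℝ) := {p | p ∈ Good ν C ∧ t < Avg ν f p} with hT
  have hS : {y | t < MF ν C f y} ⊆ ⋃ p ∈ T, ball p.1 p.2 := by
    intro y hy
    simp only [mem_ofPred_eq, MF, lt_iSup_iff] at hy
    obtain ⟨p, hp, hlt⟩ := hy
    by_cases hmem : y ∈ ball p.1 p.2
    · rw [indicator_of_mem hmem] at hlt
      exact mem_biUnion (show p ∈ T from ⟨hp, hlt⟩) hmem
    · rw [indicator_of_notMem hmem] at hlt
      exact absurd hlt (not_lt.2 bot_le)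
  obtain ⟨u, huT, hdisj, hcov⟩ := Vitali.exists_disjoint_subfamily_covering_enlargement_ball T
    (fun p => p.1) (fun p => 10 * p.2) 10 (fun p hp => by have := hp.1.2.1; linarith) 5 (by norm_num)
  have hint : ∀ p ∈ T, t * ENNReal.ofReal (p.2 ^ 2) < ∫⁻ x in ball p.1 (10 * p.2), f x ∂ν := by
    intro p hp
    have h1 := hp.2
    have hpos : 0 < p.2 := hp.1.1
    unfold Avg at h1
    have h2 : ENNReal.ofReal (p.2 ^ 2) ≠ 0 := (ENNReal.ofReal_pos.2 (pow_pos hpos 2)).ne'
    rwa [ENNReal.lt_div_iff_mul_lt (Or.inl h2) (Or.inl ENNReal.ofReal_ne_top)] at h1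
  have hcount : u.Countable := by
    have h1 := Measure.countable_meas_pos_of_disjoint_iUnion (μ := ν)
      (As := fun p : u => ball (p : X × ℝ).1 (10 * (p : X × ℝ).2)) (fun _ => measurableSet_ball)
      (fun a b hab => hdisj a.2 b.2 (fun h => hab (Subtype.ext h)))
    have h2 : {i : u | 0 < ν (ball (i : X × ℝ).1 (10 * (i : X × ℝ).2))} = univ := by
      ext p
      simp only [mem_ofPred_eq, mem_univ, iff_true]
      by_contra hcon
      have h0 : ν (ball (p : X × ℝ).1 (10 * (p : X × ℝ).2)) = 0 := le_antisymm (not_lt.1 hcon) bot_le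
      have h3 := hint p (huT p.2)
      rw [Measure.restrict_eq_zero.2 h0, lintegral_zero_measure] at h3
      exact absurd h3 (not_lt.2 bot_le)
    rw [h2] at h1
    exact (countable_univ_iff.1 h1).to_set
  have hsub : {y | t < MF ν C f y} ⊆ ⋃ p ∈ u, ball p.1 (50 * p.2) := by
    intro y hy
    obtain ⟨p, hp, hyp⟩ := mem_iUnion₂.1 (hS hy)
    obtain ⟨q, hq, hsubq⟩ := hcov p hp
    refine mem_biUnion hq ?_
    have : y ∈ ball q.1 (5 * (10 * q.2)) := hsubq (ball_subset_ball (by have := hp.1.1; linarith) hyp)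
    convert this using 2
    ring
  calc ν {y | t < MF ν C f y} ≤ ν (⋃ p ∈ u, ball p.1 (50 * p.2)) := measure_mono hsub
    _ ≤ ∑' p : u, ν (ball (p : X × ℝ).1 (50 * (p : X × ℝ).2)) := measure_biUnion_le ν hcount _
    _ ≤ ∑' p : u, C / t * ∫⁻ x in ball (p : X × ℝ).1 (10 * (p : X × ℝ).2), f x ∂ν := by
        refine ENNReal.tsum_le_tsum fun p => ?_
        have h1 := (huT p.2).1.2.2
        have h2 := hint p (huT p.2)
        refine h1.trans ?_
        rw [ENNReal.div_eq_inv_mul, mul_comm t⁻¹, mul_assoc]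
        gcongr
        rw [← ENNReal.div_eq_inv_mul, ENNReal.le_div_iff_mul_le (Or.inl ht.ne') (Or.inl ht'), mul_comm]
        exact h2.le
    _ = C / t * ∑' p : u, ∫⁻ x in ball (p : X × ℝ).1 (10 * (p : X × ℝ).2), f x ∂ν := ENNReal.tsum_mul_left
    _ = C / t * ∫⁻ x in ⋃ p ∈ u, ball p.1 (10 * p.2), f x ∂ν := by
        rw [lintegral_biUnion hcount (fun _ _ => measurableSet_ball) hdisj]
    _ ≤ C / t * ∫⁻ x, f x ∂ν := by
        gcongr
        exact Measure.restrict_le_self

theorem sq_le_layer (a : ℝ≥0∞) :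
    a ^ 2 ≤ ∫⁻ t in Ioi (0 : ℝ), if ENNReal.ofReal t < a then ENNReal.ofReal (2 * t) else 0 := by
  refine ENNReal.le_of_forall_nnreal_lt fun r hr => ?_
  set α : ℝ := Real.sqrt r with hα
  have hα0 : 0 ≤ α := Real.sqrt_nonneg _
  have hαsq : α ^ 2 = r := Real.sq_sqrt r.2
  have hlt : ENNReal.ofReal α < a := by
    by_contra hcon
    push Not at hcon
    have : a ^ 2 ≤ ENNReal.ofReal α ^ 2 := by gcongr
    rw [← ENNReal.ofReal_pow hα0, hαsq, ENNReal.ofReal_coe_nnreal] at this
    exact absurd hr (not_lt.2 this)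
  calc (r : ℝ≥0∞) = ENNReal.ofReal (α ^ 2) := by rw [hαsq, ENNReal.ofReal_coe_nnreal]
    _ = ENNReal.ofReal (∫ t in (0:ℝ)..α, 2 * t) := by
        congr 1
        rw [intervalIntegral.integral_const_mul, integral_id]; ring
    _ = ∫⁻ t in Ioc 0 α, ENNReal.ofReal (2 * t) := by
        rw [intervalIntegral.integral_of_le hα0, ofReal_integral_eq_lintegral_ofReal]
        · exact ((continuous_const.mul continuous_id).integrableOn_Icc).mono_set Ioc_subset_Icc_self
        · filter_upwards [ae_restrict_mem measurableSet_Ioc] with t ht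
          have := ht.1
          simp only [Pi.zero_apply]; positivity
    _ ≤ ∫⁻ t in Ioc 0 α, if ENNReal.ofReal t < a then ENNReal.ofReal (2 * t) else 0 := by
        refine setLIntegral_mono' measurableSet_Ioc fun t ht => ?_
        rw [if_pos]
        exact (ENNReal.ofReal_le_ofReal ht.2).trans_lt hlt
    _ ≤ ∫⁻ t in Ioi (0 : ℝ), if ENNReal.ofReal t < a then ENNReal.ofReal (2 * t) else 0 :=
        lintegral_mono_set fun t ht => ht.1

theorem layer_le (a : ℝ≥0∞) :
    ∫⁻ t in Ioi (0 : ℝ), (if ENNReal.ofReal t < a then (1 : ℝ≥0∞) else 0) ≤ a := by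
  rcases eq_or_ne a ∞ with rfl | ha
  · exact le_top
  · have h1 : ∀ t : ℝ, (if ENNReal.ofReal t < a then (1 : ℝ≥0∞) else 0) =
        {t : ℝ | ENNReal.ofReal t < a}.indicator (fun _ => 1) t := fun t => by
      simp only [indicator_apply, mem_ofPred_eq]
    simp only [h1]
    have hm : MeasurableSet {t : ℝ | ENNReal.ofReal t < a} :=
      measurableSet_lt ENNReal.measurable_ofReal measurable_const
    rw [lintegral_indicator hm, setLIntegral_one, Measure.restrict_apply hm]
    calc volume ({t : ℝ | ENNReal.ofReal t < a} ∩ Ioi 0) ≤ volume (Ioo (0:ℝ) a.toReal) := by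
          refine measure_mono ?_
          rintro t ⟨h2, h3⟩
          exact ⟨h3, (ENNReal.ofReal_lt_iff_lt_toReal (le_of_lt h3) ha).1 h2⟩
      _ = a := by rw [Real.volume_Ioo, sub_zero, ENNReal.ofReal_toReal ha]

/-- Strong type estimate in `L²`. -/
theorem strong_MF (ν : Measure X) [IsFiniteMeasure ν] {C : ℝ≥0∞} (hC0 : C ≠ 0) (hC : C ≠ ∞)
    {f : X → ℝ≥0∞} (hf : Measurable f) :
    ∫⁻ y, MF ν C f y ^ 2 ∂ν ≤ 8 * C ^ 2 * ∫⁻ x, f x ^ 2 ∂ν := by
  -- the key distributional inequality
  have key : ∀ t : ℝ, 0 < t → ν {y | ENNReal.ofReal t < MF ν C f y} ≤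
      C / (ENNReal.ofReal t / 2) * ∫⁻ x in {x | ENNReal.ofReal t < 2 * C * f x}, f x ∂ν := by
    intro t ht
    set τ := ENNReal.ofReal t with hτ
    have hτ0 : 0 < τ := ENNReal.ofReal_pos.2 ht
    have hτt : τ ≠ ∞ := ENNReal.ofReal_ne_top
    set S : Set X := {x | τ < 2 * C * f x} with hS
    have hSm : MeasurableSet S := measurableSet_lt measurable_const (hf.const_mul _)
    set g : X → ℝ≥0∞ := S.indicator f with hg
    have hsub : {y | τ < MF ν C f y} ⊆ {y | τ / 2 < MF ν C g y} := by
      intro y hy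
      simp only [mem_ofPred_eq, MF, lt_iSup_iff] at hy
      obtain ⟨p, hp, hlt⟩ := hy
      have hmem : y ∈ ball p.1 p.2 := by
        by_contra hcon
        rw [indicator_of_notMem hcon] at hlt
        exact absurd hlt (not_lt.2 bot_le)
      rw [indicator_of_mem hmem] at hlt
      have hpos : 0 < p.2 := hp.1
      have hr0 : ENNReal.ofReal (p.2 ^ 2) ≠ 0 := (ENNReal.ofReal_pos.2 (pow_pos hpos 2)).ne'
      have hrt : ENNReal.ofReal (p.2 ^ 2) ≠ ∞ := ENNReal.ofReal_ne_top
      have hle : Avg ν f p ≤ Avg ν g p + τ / 2 := by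
        unfold Avg
        have h1 : ∫⁻ x in ball p.1 (10 * p.2), f x ∂ν ≤
            ∫⁻ x in ball p.1 (10 * p.2), g x ∂ν + τ / (2 * C) * ν (ball p.1 (10 * p.2)) := by
          rw [← setLIntegral_const, ← lintegral_add_right _ measurable_const]
          refine lintegral_mono fun x => ?_
          by_cases hx : x ∈ S
          · rw [hg, indicator_of_mem hx]; exact le_self_add
          · rw [hg, indicator_of_notMem hx, zero_add]
            have h2 : 2 * C * f x ≤ τ := not_lt.1 hx
            rw [ENNReal.le_div_iff_mul_le (Or.inl (by simp [hC0])) (Or.inl (by finiteness)), mul_comm]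
            exact h2
        have h2 : ν (ball p.1 (10 * p.2)) ≤ C * ENNReal.ofReal (p.2 ^ 2) :=
          (measure_mono (ball_subset_ball (by linarith))).trans hp.2.2
        calc (∫⁻ x in ball p.1 (10 * p.2), f x ∂ν) / ENNReal.ofReal (p.2 ^ 2)
            ≤ (∫⁻ x in ball p.1 (10 * p.2), g x ∂ν + τ / (2 * C) * (C * ENNReal.ofReal (p.2 ^ 2))) /
              ENNReal.ofReal (p.2 ^ 2) := by gcongr; exact h1.trans (by gcongr)
          _ = (∫⁻ x in ball p.1 (10 * p.2), g x ∂ν) / ENNReal.ofReal (p.2 ^ 2) + τ / 2 := by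
              rw [ENNReal.add_div]
              congr 1
              rw [← mul_assoc, mul_div_assoc, ENNReal.div_self hr0 hrt, mul_one,
                ENNReal.div_eq_inv_mul, ENNReal.mul_inv (Or.inl (by norm_num)) (Or.inl (by norm_num)),
                ENNReal.div_eq_inv_mul, mul_assoc, mul_assoc, mul_comm τ C, ← mul_assoc C⁻¹,
                ENNReal.inv_mul_cancel hC0 hC, one_mul]
      have h3 : τ / 2 < Avg ν g p := by
        have h4 : τ / 2 + τ / 2 < Avg ν g p + τ / 2 := by
          rw [ENNReal.add_halves]; exact hlt.trans_le hle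
        exact lt_of_add_lt_add_right h4
      exact h3.trans_le (le_MF hp hmem)
    calc ν {y | τ < MF ν C f y} ≤ ν {y | τ / 2 < MF ν C g y} := measure_mono hsub
      _ ≤ C / (τ / 2) * ∫⁻ x, g x ∂ν := weak_MF ν C g (ENNReal.half_pos hτ0.ne') (by finiteness)
      _ = C / (τ / 2) * ∫⁻ x in S, f x ∂ν := by rw [hg, lintegral_indicator hSm]
  have hMm := measurable_MF ν C f
  calc ∫⁻ y, MF ν C f y ^ 2 ∂ν
      ≤ ∫⁻ y, (∫⁻ t in Ioi (0 : ℝ), if ENNReal.ofReal t < MF ν C f y then
          ENNReal.ofReal (2 * t) else 0) ∂ν := lintegral_mono fun y => sq_le_layer _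
    _ = ∫⁻ t in Ioi (0 : ℝ), (∫⁻ y, (if ENNReal.ofReal t < MF ν C f y then
          ENNReal.ofReal (2 * t) else 0) ∂ν) := by
        rw [lintegral_lintegral_swap]
        apply Measurable.aemeasurable
        refine Measurable.ite ?_ ?_ measurable_const
        · exact measurableSet_lt (by fun_prop) (hMm.comp measurable_fst)
        · fun_prop
    _ ≤ ∫⁻ t in Ioi (0 : ℝ), (∫⁻ x, (if ENNReal.ofReal t < 2 * C * f x then
          4 * C * f x else 0) ∂ν) := by
        refine setLIntegral_mono' measurableSet_Ioi fun t ht => ?_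
        have ht' : 0 < t := ht
        have e1 : ∫⁻ y, (if ENNReal.ofReal t < MF ν C f y then ENNReal.ofReal (2 * t) else 0) ∂ν =
            ENNReal.ofReal (2 * t) * ν {y | ENNReal.ofReal t < MF ν C f y} := by
          have hm : MeasurableSet {y | ENNReal.ofReal t < MF ν C f y} :=
            measurableSet_lt measurable_const hMm
          rw [← setLIntegral_const, ← lintegral_indicator hm]
          refine lintegral_congr fun y => ?_
          simp only [indicator_apply, mem_ofPred_eq]
        have e2 : ∫⁻ x, (if ENNReal.ofReal t < 2 * C * f x then 4 * C * f x else 0) ∂ν =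
            4 * C * ∫⁻ x in {x | ENNReal.ofReal t < 2 * C * f x}, f x ∂ν := by
          have hm : MeasurableSet {x | ENNReal.ofReal t < 2 * C * f x} :=
            measurableSet_lt measurable_const (hf.const_mul _)
          rw [← lintegral_const_mul' _ _ (by finiteness), ← lintegral_indicator hm]
          refine lintegral_congr fun y => ?_
          simp only [indicator_apply, mem_ofPred_eq]
        rw [e1, e2]
        refine (mul_le_mul_right (key t ht') _).trans (le_of_eq ?_)
        rw [← mul_assoc]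
        congr 1
        have h0 : ENNReal.ofReal t ≠ 0 := (ENNReal.ofReal_pos.2 ht').ne'
        have h1 : ENNReal.ofReal t ≠ ∞ := ENNReal.ofReal_ne_top
        rw [ENNReal.ofReal_mul (by norm_num), ENNReal.ofReal_ofNat, ENNReal.div_eq_inv_mul,
          ENNReal.div_eq_inv_mul, ENNReal.mul_inv (Or.inl (by norm_num)) (Or.inl (by norm_num)), inv_inv]
        calc 2 * ENNReal.ofReal t * (2 * (ENNReal.ofReal t)⁻¹ * C)
            = 2 * 2 * (ENNReal.ofReal t * (ENNReal.ofReal t)⁻¹) * C := by ring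
          _ = 4 * C := by rw [ENNReal.mul_inv_cancel h0 h1]; norm_num
    _ = ∫⁻ x, (∫⁻ t in Ioi (0 : ℝ), (if ENNReal.ofReal t < 2 * C * f x then
          4 * C * f x else 0)) ∂ν := by
        rw [lintegral_lintegral_swap]
        apply Measurable.aemeasurable
        refine Measurable.ite ?_ ?_ measurable_const
        · exact measurableSet_lt (by fun_prop) (by fun_prop)
        · fun_prop
    _ ≤ ∫⁻ x, 8 * C ^ 2 * f x ^ 2 ∂ν := by
        refine lintegral_mono fun x => ?_
        have e1 : ∀ t : ℝ, (if ENNReal.ofReal t < 2 * C * f x then 4 * C * f x else 0) =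
            4 * C * f x * (if ENNReal.ofReal t < 2 * C * f x then 1 else 0) := by
          intro t; split_ifs <;> simp
        simp only [e1]
        rw [lintegral_const_mul]
        · refine (mul_le_mul_right (layer_le _) _).trans (le_of_eq (by ring))
        · exact Measurable.ite (measurableSet_lt ENNReal.measurable_ofReal measurable_const)
            measurable_const measurable_const
    _ = 8 * C ^ 2 * ∫⁻ x, f x ^ 2 ∂ν := lintegral_const_mul' _ _ (by finiteness)

end Pool.Agent.H250.MS
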