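import Mathlib
import Pool.Agent.H250.MS.Ext
import Pool.Agent.H250.MS.Max

/-!
The upper bound for the product of the moduli of the two families of a quadrilateral.
-/

set_option autoImplicit false
set_option linter.unusedSectionVars false

open MeasureTheory Set Filter Topology Metric
open scoped ENNReal NNReal

namespace Pool.Agent.H250.MS

variable {X : Type*} [MetricSpace X] [MeasurableSpace X] [BorelSpace X]

/-- Admissibility for all `1`-Lipschitz curves in `G` from `E` to `F`. -/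
def LAdm (E F G : Set X) (ρ : X → ℝ≥0∞) : Prop :=
  ∀ (L : ℝ) (γ : ℝ → X), 0 ≤ L → LipschitzWith 1 γ → (∀ t ∈ Icc 0 L, γ t ∈ G) → γ 0 ∈ E →
    γ L ∈ F → 1 ≤ ∫⁻ t in Icc 0 L, ρ (γ t)

/-- The modulus. -/
noncomputable def LMod (ν : Measure X) (E F G : Set X) : ℝ≥0∞ :=
  ⨅ (ρ : X → ℝ≥0∞) (_ : Measurable ρ) (_ : LAdm E F G ρ), ∫⁻ x, ρ x ^ 2 ∂ν

theorem LMod_le {ν : Measure X} {E F G : Set X} {ρ : X → ℝ≥0∞} (h : Measurable ρ)
    (h' : LAdm E F G ρ) : LMod ν E F G ≤ ∫⁻ x, ρ x ^ 2 ∂ν :=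
  iInf_le_of_le ρ (iInf_le_of_le h (iInf_le_of_le h' le_rfl))

theorem length_ge {E F : Set X} {d : ℝ} (hd : ∀ x ∈ E, ∀ y ∈ F, d ≤ dist x y) {L : ℝ} {γ : ℝ → X}
    (hL : 0 ≤ L) (hγ : LipschitzWith 1 γ) (h0 : γ 0 ∈ E) (h1 : γ L ∈ F) : d ≤ L := by
  have h2 := hγ.dist_le_mul 0 L
  rw [NNReal.coe_one, one_mul, dist_comm 0 L, Real.dist_eq, sub_zero, abs_of_nonneg hL] at h2
  exact (hd _ h0 _ h1).trans h2

theorem LMod_ne_top {ν : Measure X} [IsFiniteMeasure ν] {E F G : Set X} {d : ℝ} (hd0 : 0 < d)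
    (hd : ∀ x ∈ E, ∀ y ∈ F, d ≤ dist x y) : LMod ν E F G ≠ ∞ := by
  have h : LAdm E F G (fun _ => ENNReal.ofReal (1 / d)) := by
    intro L γ hL hγ _ h0 h1
    have h2 := length_ge hd hL hγ h0 h1
    rw [setLIntegral_const, Real.volume_Icc, sub_zero, ← ENNReal.ofReal_mul (by positivity),
      ← ENNReal.ofReal_one]
    apply ENNReal.ofReal_le_ofReal
    rw [one_div, ← div_eq_inv_mul, le_div_iff₀ hd0]
    linarith
  refine ne_top_of_le_ne_top ?_ (LMod_le measurable_const h)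
  rw [lintegral_const]
  finiteness

theorem vol_lower {L s a : ℝ} (hs : s ∈ Icc 0 L) (ha : 0 < a) (haL : a ≤ L) :
    ENNReal.ofReal a ≤ volume (Icc 0 L ∩ Ioo (s - a) (s + a)) := by
  by_cases h1 : s + a ≤ L
  · calc ENNReal.ofReal a = volume (Ico s (s + a)) := by rw [Real.volume_Ico]; congr 1; ring
      _ ≤ _ := by
        refine measure_mono fun t ht => ?_
        exact ⟨⟨hs.1.trans ht.1, ht.2.le.trans h1⟩, by linarith [ht.1], ht.2⟩
  · by_cases h2 : 0 ≤ s - a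
    · calc ENNReal.ofReal a = volume (Ioc (s - a) s) := by rw [Real.volume_Ioc]; congr 1; ring
        _ ≤ _ := by
          refine measure_mono fun t ht => ?_
          exact ⟨⟨h2.trans ht.1.le, ht.2.trans hs.2⟩, ht.1, by linarith [ht.2]⟩
    · calc ENNReal.ofReal a ≤ ENNReal.ofReal (L - 0) := by
            apply ENNReal.ofReal_le_ofReal; linarith
        _ = volume (Icc 0 L) := by rw [Real.volume_Icc]
        _ ≤ _ := by
          refine measure_mono fun t ht => ?_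
          push Not at h1 h2
          exact ⟨ht, by linarith [ht.1], by linarith [ht.2]⟩

/-- A finite family of balls which covers a set met by all the curves gives an admissible
function. -/
theorem ladm_balls {E F G : Set X} {d : ℝ} (hd : ∀ x ∈ E, ∀ y ∈ F, d ≤ dist x y)
    (u : Finset X) (r : X → ℝ) (hr : ∀ b ∈ u, 0 < r b) (hrd : ∀ b ∈ u, 5 * r b ≤ d)
    (hmeet : ∀ (L : ℝ) (γ : ℝ → X), 0 ≤ L → LipschitzWith 1 γ → (∀ t ∈ Icc 0 L, γ t ∈ G) →
      γ 0 ∈ E → γ L ∈ F → ∃ s ∈ Icc 0 L, ∃ b ∈ u, γ s ∈ ball b (5 * r b)) :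
    LAdm E F G (fun y => ∑ b ∈ u, (ball b (10 * r b)).indicator
      (fun _ => (ENNReal.ofReal (5 * r b))⁻¹) y) := by
  intro L γ hL hγ hG h0 h1
  obtain ⟨s, hs, b, hb, hsb⟩ := hmeet L γ hL hγ hG h0 h1
  have hLd := length_ge hd hL hγ h0 h1
  have hrb := hr b hb
  have hsub : ∀ t ∈ Icc 0 L ∩ Ioo (s - 5 * r b) (s + 5 * r b), γ t ∈ ball b (10 * r b) := by
    intro t ht
    have h2 := hγ.dist_le_mul t s
    rw [NNReal.coe_one, one_mul, Real.dist_eq] at h2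
    have h3 : |t - s| < 5 * r b := abs_lt.2 ⟨by linarith [ht.2.1], by linarith [ht.2.2]⟩
    have h4 : dist (γ s) b < 5 * r b := hsb
    have h5 := dist_triangle (γ t) (γ s) b
    rw [mem_ball]; linarith
  calc (1 : ℝ≥0∞) = (ENNReal.ofReal (5 * r b))⁻¹ * ENNReal.ofReal (5 * r b) := by
        rw [ENNReal.inv_mul_cancel (ENNReal.ofReal_pos.2 (by positivity)).ne' ENNReal.ofReal_ne_top]
    _ ≤ (ENNReal.ofReal (5 * r b))⁻¹ * volume (Icc 0 L ∩ Ioo (s - 5 * r b) (s + 5 * r b)) := by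
        gcongr
        exact vol_lower hs (by positivity) ((hrd b hb).trans hLd)
    _ = ∫⁻ t in Icc 0 L ∩ Ioo (s - 5 * r b) (s + 5 * r b), (ENNReal.ofReal (5 * r b))⁻¹ := by
        rw [setLIntegral_const]
    _ ≤ ∫⁻ t in Icc 0 L ∩ Ioo (s - 5 * r b) (s + 5 * r b), ∑ b ∈ u, (ball b (10 * r b)).indicator
          (fun _ => (ENNReal.ofReal (5 * r b))⁻¹) (γ t) := by
        refine setLIntegral_mono' (measurableSet_Icc.inter measurableSet_Ioo) fun t ht => ?_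
        refine le_trans ?_ (Finset.single_le_sum (f := fun b => (ball b (10 * r b)).indicator
          (fun _ => (ENNReal.ofReal (5 * r b))⁻¹) (γ t)) (fun _ _ => bot_le) hb)
        rw [indicator_of_mem (hsub t ht)]
    _ ≤ _ := lintegral_mono_set inter_subset_left

theorem sq_iSup_le (a : ℕ → ℝ≥0∞) : (⨆ k, a k) ^ 2 ≤ ∑' k, a k ^ 2 := by
  have h1 : ∀ k, a k ≤ (∑' k, a k ^ 2) ^ (1 / 2 : ℝ) := by
    intro k
    rw [← ENNReal.rpow_le_rpow_iff (z := 2) (by norm_num), ← ENNReal.rpow_mul]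
    norm_num
    exact ENNReal.le_tsum k
  have h2 : (⨆ k, a k) ≤ (∑' k, a k ^ 2) ^ (1 / 2 : ℝ) := iSup_le h1
  calc (⨆ k, a k) ^ 2 ≤ ((∑' k, a k ^ 2) ^ (1 / 2 : ℝ)) ^ 2 := by gcongr
    _ = ∑' k, a k ^ 2 := by
        rw [← ENNReal.rpow_natCast, ← ENNReal.rpow_mul]; norm_num

end Pool.Agent.H250.MS
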