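import Mathlib
import Pool.Agent.H250.MS.Upper
import Pool.Agent.H250.MS.Rough

/-!
For an admissible lower semicontinuous function there is a Lipschitz function which is `0` on one
side, at least `1 - η` on the other side, and has pointwise Lipschitz constants at most `ρ + η`.
-/

set_option autoImplicit false
set_option linter.unusedSectionVars false

open MeasureTheory Set Filter Topology Metric
open scoped ENNReal NNReal

namespace Pool.Agent.H250.MS

variable {X : Type*} [MetricSpace X] [MeasurableSpace X] [BorelSpace X]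

/-- The infimum of `min ρ k` over the ball of radius `1 / (k + 1)`. -/
noncomputable def Inf (ρ : X → ℝ≥0∞) (k : ℕ) (x : X) : ℝ≥0∞ :=
  ⨅ (y : X) (_ : dist y x < 1 / ((k : ℝ) + 1)), min (ρ y) k

theorem Inf_le (ρ : X → ℝ≥0∞) (k : ℕ) (x : X) : Inf ρ k x ≤ ρ x :=
  (iInf₂_le x (by rw [dist_self]; positivity)).trans (min_le_left _ _)

theorem Inf_le_nat (ρ : X → ℝ≥0∞) (k : ℕ) (x : X) : Inf ρ k x ≤ k :=
  (iInf₂_le x (by rw [dist_self]; positivity)).trans (min_le_right _ _)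

theorem measurable_Inf (ρ : X → ℝ≥0∞) (k : ℕ) : Measurable (Inf ρ k) := by
  refine measurable_of_Iio fun a => ?_
  apply IsOpen.measurableSet
  have : Inf ρ k ⁻¹' Iio a = ⋃ (y : X) (_ : min (ρ y) k < a), ball y (1 / ((k : ℝ) + 1)) := by
    ext x
    simp only [mem_preimage, mem_Iio, Inf, iInf_lt_iff, mem_iUnion, mem_ball, exists_prop]
    constructor
    · rintro ⟨y, h1, h2⟩; exact ⟨y, h2, by rwa [dist_comm]⟩
    · rintro ⟨y, h1, h2⟩; exact ⟨y, by rwa [dist_comm], h1⟩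
  rw [this]
  exact isOpen_iUnion fun y => isOpen_iUnion fun _ => isOpen_ball

/-- The weight used for the rough curves. -/
noncomputable def Wt (ρ : X → ℝ≥0∞) (η : ℝ) (k : ℕ) (x : X) : ℝ≥0∞ := Inf ρ k x + ENNReal.ofReal η

theorem measurable_Wt (ρ : X → ℝ≥0∞) (η : ℝ) (k : ℕ) : Measurable (Wt ρ η k) :=
  (measurable_Inf ρ k).add_const _

theorem Wt_ne_top (ρ : X → ℝ≥0∞) (η : ℝ) (k : ℕ) (x : X) : Wt ρ η k x ≠ ∞ := by
  have : Inf ρ k x ≠ ∞ := ne_top_of_le_ne_top (ENNReal.natCast_ne_top k) (Inf_le_nat ρ k x)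
  unfold Wt
  finiteness

theorem exists_scale {K E F : Set X} (hK : IsCompact K) (hE : IsClosed E) (hF : IsClosed F)
    {ρ : X → ℝ≥0∞} (hρ : LowerSemicontinuous ρ) (hadm : LAdm E F K ρ) {η : ℝ} (hη : 0 < η)
    (hη1 : η < 1) :
    ∃ k : ℕ, ∀ y ∈ F, ENNReal.ofReal (1 - η) ≤ Dst K E (1 / ((k : ℝ) + 1)) (Wt ρ η k) y := by
  by_contra hcon
  push Not at hcon
  -- a sequence of rough curves
  have h1 : ∀ k : ℕ, ∃ (L : ℝ) (c : ℝ → X), 0 ≤ L ∧ Rough K E (1 / ((k : ℝ) + 1)) L c ∧ c L ∈ F ∧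
      ∫⁻ t in Ico 0 L, Wt ρ η k (c t) < ENNReal.ofReal (1 - η) := by
    intro k
    obtain ⟨y, hy, hlt⟩ := hcon k
    have hone : ENNReal.ofReal (1 - η) < 1 := by
      rw [← ENNReal.ofReal_one]
      exact (ENNReal.ofReal_lt_ofReal_iff one_pos).2 (by linarith)
    unfold Dst at hlt
    rw [min_lt_iff] at hlt
    rcases hlt with h | h
    · exact absurd h (not_lt.2 hone.le)
    · simp only [iInf_lt_iff] at h
      obtain ⟨L, c, hL, hc, hcL, hlt⟩ := h
      exact ⟨L, c, hL, hc, by rw [hcL]; exact hy, hlt⟩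
  choose L c hL0 hc hcF hcost using h1
  have hLB : ∀ k, L k ≤ 1 / η := by
    intro k
    have h2 : ENNReal.ofReal η * ENNReal.ofReal (L k) ≤ ∫⁻ t in Ico 0 (L k), Wt ρ η k (c k t) := by
      calc ENNReal.ofReal η * ENNReal.ofReal (L k) = ∫⁻ t in Ico 0 (L k), ENNReal.ofReal η := by
            rw [setLIntegral_const, Real.volume_Ico, sub_zero]
        _ ≤ _ := lintegral_mono fun t => le_add_self
    have h3 := h2.trans_lt (hcost k)
    rw [← ENNReal.ofReal_mul hη.le, ENNReal.ofReal_lt_ofReal_iff (by linarith)] at h3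
    rw [le_div_iff₀ hη]
    nlinarith
  obtain ⟨Li, γ, φ, hφ, hLi, hγ, hγK, hγE, hγF, hlimL, hlim⟩ := rough_limit hK hE hF
    (tendsto_one_div_add_atTop_nhds_zero_nat (𝕜 := ℝ)) hL0 hLB hc hcF
  have h2 := hadm Li γ hLi hγ (fun t _ => hγK t) hγE hγF
  -- Fatou
  set g : ℕ → ℝ → ℝ≥0∞ := fun k => (Ico 0 (L (φ k))).indicator (fun t => Inf ρ (φ k) (c (φ k) t)) with hg
  have hgm : ∀ k, Measurable (g k) := fun k =>
    ((measurable_Inf ρ (φ k)).comp (hc (φ k)).1).indicator measurableSet_Ico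
  have hpt : ∀ t ∈ Ioo 0 Li, ρ (γ t) ≤ liminf (fun k => g k t) atTop := by
    intro t ht
    refine le_of_forall_lt fun a ha => ?_
    obtain ⟨b, hab, hb⟩ := exists_between ha
    refine hab.trans_le ?_
    refine le_liminf_of_le (by isBoundedDefault) ?_
    have hev := hρ (γ t) b hb
    obtain ⟨s, hs, hsb⟩ := Metric.eventually_nhds_iff.1 hev
    have e1 : ∀ᶠ k in atTop, dist (c (φ k) t) (γ t) < s / 2 :=
      (Metric.tendsto_nhds.1 (hlim t ht)) _ (by positivity)
    have e2 : ∀ᶠ k in atTop, 1 / (((φ k : ℕ) : ℝ) + 1) < s / 2 :=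
      (tendsto_order.1 ((tendsto_one_div_add_atTop_nhds_zero_nat (𝕜 := ℝ)).comp hφ.tendsto_atTop)).2 _
        (by positivity)
    have e3 : ∀ᶠ k in atTop, t < L (φ k) := (tendsto_order.1 hlimL).1 t ht.2
    have hbt : b ≠ ∞ := (hb.trans_le le_top).ne
    have e4 : ∀ᶠ k in atTop, b ≤ ((φ k : ℕ) : ℝ≥0∞) := by
      obtain ⟨n, hn⟩ := ENNReal.exists_nat_gt hbt
      filter_upwards [hφ.tendsto_atTop.eventually_ge_atTop n] with k hk
      exact hn.le.trans (by exact_mod_cast hk)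
    filter_upwards [e1, e2, e3, e4] with k h1 h2 h3 h4
    simp only [hg]
    rw [indicator_of_mem (show t ∈ Ico 0 (L (φ k)) from ⟨ht.1.le, h3⟩)]
    refine le_iInf fun y => le_iInf fun hy => le_min ?_ h4
    refine (hsb ?_).le
    have := dist_triangle y (c (φ k) t) (γ t)
    linarith
  have h3 : ∫⁻ t in Icc 0 Li, ρ (γ t) ≤ ENNReal.ofReal (1 - η) := by
    calc ∫⁻ t in Icc 0 Li, ρ (γ t) = ∫⁻ t in Ioo 0 Li, ρ (γ t) := by
          rw [restrict_Ioo_eq_restrict_Icc]
      _ ≤ ∫⁻ t in Ioo 0 Li, liminf (fun k => g k t) atTop :=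
          setLIntegral_mono' measurableSet_Ioo hpt
      _ ≤ ∫⁻ t, liminf (fun k => g k t) atTop := setLIntegral_le_lintegral _ _
      _ ≤ liminf (fun k => ∫⁻ t, g k t) atTop := lintegral_liminf_le hgm
      _ ≤ liminf (fun _ : ℕ => ENNReal.ofReal (1 - η)) atTop := by
          refine liminf_le_liminf (Eventually.of_forall fun k => ?_)
          simp only [hg]
          rw [lintegral_indicator measurableSet_Ico]
          refine le_trans (lintegral_mono fun t => ?_) (hcost (φ k)).le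
          exact le_self_add
      _ = ENNReal.ofReal (1 - η) := by simp
  have h4 := h2.trans h3
  rw [← ENNReal.ofReal_one, ENNReal.ofReal_le_ofReal_iff (by linarith)] at h4
  linarith

end Pool.Agent.H250.MS
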