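import Mathlib
import Pool.Agent.H250.MS.Low1
import Pool.Agent.H250.MS.Area
import Pool.Agent.H250.MS.Miranda

/-!
The lower bound for the product of the moduli of the two families of a quadrilateral.
-/

set_option autoImplicit false
set_option linter.unusedSectionVars false

open MeasureTheory Set Filter Topology Metric
open scoped ENNReal NNReal unitInterval

namespace Pool.Agent.H250.MS

variable {X : Type*} [MetricSpace X] [MeasurableSpace X] [BorelSpace X]

/-- The map of the plane which extends a map of the square, constant along rays parallel to the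
axes. -/
noncomputable def sq (φ : C(I × I, X)) (p : ℝ × ℝ) : X :=
  φ (projIcc 0 1 zero_le_one p.1, projIcc 0 1 zero_le_one p.2)

theorem continuous_sq (φ : C(I × I, X)) : Continuous (sq φ) := by
  unfold sq
  exact φ.continuous.comp ((continuous_projIcc.comp continuous_fst).prodMk
    (continuous_projIcc.comp continuous_snd))

theorem sq_mem (φ : C(I × I, X)) (p : ℝ × ℝ) : sq φ p ∈ range φ := mem_range_self _

/-- The sides of the quadrilateral. -/
def bottom (φ : C(I × I, X)) : Set X := range fun s : I => φ (s, 0)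
def top (φ : C(I × I, X)) : Set X := range fun s : I => φ (s, 1)
def left (φ : C(I × I, X)) : Set X := range fun t : I => φ (0, t)
def right (φ : C(I × I, X)) : Set X := range fun t : I => φ (1, t)

theorem sq_bottom (φ : C(I × I, X)) (s : ℝ) : sq φ (s, 0) ∈ bottom φ := by
  refine ⟨projIcc 0 1 zero_le_one s, ?_⟩
  simp only [sq, projIcc_left]; rfl

theorem sq_top (φ : C(I × I, X)) (s : ℝ) : sq φ (s, 1) ∈ top φ := by
  refine ⟨projIcc 0 1 zero_le_one s, ?_⟩
  simp only [sq, projIcc_right]; rfl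

theorem sq_left (φ : C(I × I, X)) (s : ℝ) : sq φ (0, s) ∈ left φ := by
  refine ⟨projIcc 0 1 zero_le_one s, ?_⟩
  simp only [sq, projIcc_left]; rfl

theorem sq_right (φ : C(I × I, X)) (s : ℝ) : sq φ (1, s) ∈ right φ := by
  refine ⟨projIcc 0 1 zero_le_one s, ?_⟩
  simp only [sq, projIcc_right]; rfl

theorem Dst_lip {K E : Set X} {δ : ℝ} (hδ : 0 ≤ δ) {w : X → ℝ≥0∞} (hw : ∀ x, w x ≠ ∞) {x y : X}
    (hx : x ∈ K) (hy : y ∈ K) (hxy : dist x y ≤ δ) :
    |(Dst K E δ w x).toReal - (Dst K E δ w y).toReal| ≤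
      max (w x).toReal (w y).toReal * dist x y := by
  have key : ∀ a b : X, b ∈ K → dist a b ≤ δ →
      (Dst K E δ w b).toReal ≤ (Dst K E δ w a).toReal + (w a).toReal * dist a b := by
    intro a b hb hab
    have h1 := Dst_le_add (E := E) hδ w hb hab
    have hne : Dst K E δ w a ≠ ∞ := ne_top_of_le_ne_top ENNReal.one_ne_top (Dst_le_one _ _ _ _ _)
    have h2 : Dst K E δ w a + w a * ENNReal.ofReal (dist a b) ≠ ∞ := by
      have := hw a
      finiteness
    have h3 := ENNReal.toReal_mono h2 h1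
    rwa [ENNReal.toReal_add hne (by have := hw a; finiteness), ENNReal.toReal_mul,
      ENNReal.toReal_ofReal dist_nonneg] at h3
  have h1 := key x y hy hxy
  have h2 := key y x hx (by rwa [dist_comm])
  rw [dist_comm y x] at h2
  have h3 : (w x).toReal * dist x y ≤ max (w x).toReal (w y).toReal * dist x y := by
    gcongr; exact le_max_left _ _
  have h4 : (w y).toReal * dist x y ≤ max (w x).toReal (w y).toReal * dist x y := by
    gcongr; exact le_max_right _ _
  rw [abs_le]
  constructor <;> linarith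

theorem lower_aux (φ : C(I × I, X)) {ρ g : X → ℝ≥0∞}
    (hρ : LowerSemicontinuous ρ) (hg : LowerSemicontinuous g)
    (hadmρ : LAdm (bottom φ) (top φ) (range φ) ρ) (hadmg : LAdm (left φ) (right φ) (range φ) g)
    {η : ℝ} (hη : 0 < η) (hη1 : η < 1) :
    ENNReal.ofReal ((1 - η) * (1 - η)) ≤
      ∫⁻ x in range φ, (ρ x + ENNReal.ofReal (2 * η)) * (g x + ENNReal.ofReal (2 * η))
        ∂(μH[2] : Measure X) := by
  set K := range φ with hKdef
  have hK : IsCompact K := isCompact_range φ.continuous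
  have hcb : IsClosed (bottom φ) := (isCompact_range (by fun_prop)).isClosed
  have hct : IsClosed (top φ) := (isCompact_range (by fun_prop)).isClosed
  have hcl : IsClosed (left φ) := (isCompact_range (by fun_prop)).isClosed
  have hcr : IsClosed (right φ) := (isCompact_range (by fun_prop)).isClosed
  have hbK : bottom φ ⊆ K := by rintro _ ⟨s, rfl⟩; exact mem_range_self _
  have hlK : left φ ⊆ K := by rintro _ ⟨s, rfl⟩; exact mem_range_self _
  obtain ⟨k₁, hk₁⟩ := exists_scale hK hcb hct hρ hadmρ hη hη1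
  obtain ⟨k₂, hk₂⟩ := exists_scale hK hcl hcr hg hadmg hη hη1
  set δ₁ : ℝ := 1 / ((k₁ : ℝ) + 1) with hδ₁
  set δ₂ : ℝ := 1 / ((k₂ : ℝ) + 1) with hδ₂
  have hδ₁0 : 0 < δ₁ := by positivity
  have hδ₂0 : 0 < δ₂ := by positivity
  set U : X → ℝ := fun x => (Dst K (bottom φ) δ₁ (Wt ρ η k₁) x).toReal with hU
  set V : X → ℝ := fun x => (Dst K (left φ) δ₂ (Wt g η k₂) x).toReal with hV
  have hUl : ∀ x ∈ K, ∀ y ∈ K, dist x y ≤ min δ₁ δ₂ →
      |U x - U y| ≤ max (Wt ρ η k₁ x).toReal (Wt ρ η k₁ y).toReal * dist x y :=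
    fun x hx y hy hxy => Dst_lip hδ₁0.le (Wt_ne_top ρ η k₁) hx hy (hxy.trans (min_le_left _ _))
  have hVl : ∀ x ∈ K, ∀ y ∈ K, dist x y ≤ min δ₁ δ₂ →
      |V x - V y| ≤ max (Wt g η k₂ x).toReal (Wt g η k₂ y).toReal * dist x y :=
    fun x hx y hy hxy => Dst_lip hδ₂0.le (Wt_ne_top g η k₂) hx hy (hxy.trans (min_le_right _ _))
  have hWb : ∀ (f : X → ℝ≥0∞) (k : ℕ) (x : X), (Wt f η k x).toReal ≤ k + η := by
    intro f k x
    have h1 : Wt f η k x ≤ ENNReal.ofReal (k + η) := by
      unfold Wt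
      rw [ENNReal.ofReal_add (by positivity) hη.le, ENNReal.ofReal_natCast]
      gcongr
      exact Inf_le_nat _ _ _
    exact ENNReal.toReal_le_of_le_ofReal (by positivity) h1
  have hcont : ∀ (W : X → ℝ) (f : X → ℝ≥0∞) (k : ℕ), (∀ x ∈ K, ∀ y ∈ K, dist x y ≤ min δ₁ δ₂ →
      |W x - W y| ≤ max (Wt f η k x).toReal (Wt f η k y).toReal * dist x y) →
      Continuous fun p : ℝ × ℝ => W (sq φ p) := by
    intro W f k hW
    have hWc : ContinuousOn W K := by
      intro x hx
      rw [ContinuousWithinAt, tendsto_iff_dist_tendsto_zero]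
      have h1 : Tendsto (fun y => ((k : ℝ) + η) * dist y x) (𝓝[K] x) (𝓝 (((k : ℝ) + η) * 0)) := by
        refine Tendsto.const_mul _ ?_
        have : Tendsto (fun y => dist y x) (𝓝 x) (𝓝 0) := tendsto_iff_dist_tendsto_zero.1 tendsto_id
        exact this.mono_left nhdsWithin_le_nhds
      rw [mul_zero] at h1
      refine squeeze_zero' (Eventually.of_forall fun _ => dist_nonneg) ?_ h1
      have h2 : ∀ᶠ y in 𝓝[K] x, dist y x < min δ₁ δ₂ :=
        mem_nhdsWithin_of_mem_nhds (ball_mem_nhds x (lt_min hδ₁0 hδ₂0))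
      filter_upwards [h2, self_mem_nhdsWithin] with y hy hyK
      rw [Real.dist_eq]
      refine (hW y hyK x hx hy.le).trans ?_
      gcongr
      exact max_le (hWb f k y) (hWb f k x)
    rw [← continuousOn_univ]
    exact hWc.comp (continuous_sq φ).continuousOn (fun p _ => sq_mem φ p)
  have hUc := hcont U ρ k₁ hUl
  have hVc := hcont V g k₂ hVl
  have hU0 : ∀ x ∈ bottom φ, U x = 0 := fun x hx => by
    simp only [hU, Dst_zero hδ₁0.le hbK (Wt ρ η k₁) hx, ENNReal.toReal_zero]
  have hV0 : ∀ x ∈ left φ, V x = 0 := fun x hx => by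
    simp only [hV, Dst_zero hδ₂0.le hlK (Wt g η k₂) hx, ENNReal.toReal_zero]
  have hge : ∀ (E : Set X) (δ : ℝ) (w : X → ℝ≥0∞) (x : X), ENNReal.ofReal (1 - η) ≤ Dst K E δ w x →
      1 - η ≤ (Dst K E δ w x).toReal := by
    intro E δ w x hx
    exact (ENNReal.ofReal_le_iff_le_toReal
      (ne_top_of_le_ne_top ENNReal.one_ne_top (Dst_le_one _ _ _ _ _))).1 hx
  have hU1 : ∀ x ∈ top φ, 1 - η ≤ U x := fun x hx => hge _ _ _ _ (hk₁ x hx)
  have hV1 : ∀ x ∈ right φ, 1 - η ≤ V x := fun x hx => hge _ _ _ _ (hk₂ x hx)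
  -- the image contains a square
  have hsub : Ioo 0 (1 - η) ×ˢ Ioo 0 (1 - η) ⊆ (fun x => (U x, V x)) '' K := by
    rintro ⟨a, b⟩ ⟨ha, hb⟩
    simp only [mem_Ioo] at ha hb
    have hF : Continuous fun p : ℝ × ℝ =>
        ((U (sq φ p) - a : ℝ) : ℂ) + ((V (sq φ p) - b : ℝ) : ℂ) * Complex.I :=
      (Complex.continuous_ofReal.comp (hUc.sub continuous_const)).add
        ((Complex.continuous_ofReal.comp (hVc.sub continuous_const)).mul continuous_const)
    obtain ⟨s, _, t, _, hst⟩ := Pool.Agent.H250.Mir.miranda hF (zero_le_one (α := ℝ))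
      (zero_le_one (α := ℝ))
      (fun s _ => by
        have := hU0 _ (sq_bottom φ s)
        simp only [Complex.add_re, Complex.ofReal_re, Complex.mul_re, Complex.I_re, Complex.ofReal_im,
          Complex.I_im, this]
        linarith)
      (fun s _ => by
        have := hU1 _ (sq_top φ s)
        simp only [Complex.add_re, Complex.ofReal_re, Complex.mul_re, Complex.I_re, Complex.ofReal_im,
          Complex.I_im]
        linarith)
      (fun s _ => by
        have := hV0 _ (sq_left φ s)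
        simp only [Complex.add_im, Complex.ofReal_im, Complex.mul_im, Complex.I_re, Complex.ofReal_re,
          Complex.I_im, this]
        linarith)
      (fun s _ => by
        have := hV1 _ (sq_right φ s)
        simp only [Complex.add_im, Complex.ofReal_im, Complex.mul_im, Complex.I_re, Complex.ofReal_re,
          Complex.I_im]
        linarith)
    refine ⟨sq φ (s, t), sq_mem φ _, ?_⟩
    have e1 := congrArg Complex.re hst
    have e2 := congrArg Complex.im hst
    simp only [Complex.add_re, Complex.ofReal_re, Complex.mul_re, Complex.I_re, Complex.ofReal_im,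
      Complex.I_im, Complex.add_im, Complex.mul_im, Complex.zero_re, Complex.zero_im] at e1 e2
    refine Prod.ext ?_ ?_
    · show U (sq φ (s, t)) = a; linarith
    · show V (sq φ (s, t)) = b; linarith
  have harea := area_le hK (U := U) (V := V) (w₁ := fun x => (Wt ρ η k₁ x).toReal)
    (w₂ := fun x => (Wt g η k₂ x).toReal) (measurable_Wt ρ η k₁).ennreal_toReal
    (measurable_Wt g η k₂).ennreal_toReal (fun _ => ENNReal.toReal_nonneg)
    (fun _ => ENNReal.toReal_nonneg) (lt_min hδ₁0 hδ₂0) hUl hVl hη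
  calc ENNReal.ofReal ((1 - η) * (1 - η)) = volume (Ioo 0 (1 - η) ×ˢ Ioo 0 (1 - η)) := by
        rw [Measure.volume_eq_prod, Measure.prod_prod, Real.volume_Ioo, sub_zero,
          ENNReal.ofReal_mul (by linarith)]
    _ ≤ volume ((fun x => (U x, V x)) '' K) := measure_mono hsub
    _ ≤ _ := harea
    _ ≤ _ := by
        refine lintegral_mono fun x => ?_
        have key : ∀ (f : X → ℝ≥0∞) (k : ℕ), ENNReal.ofReal ((Wt f η k x).toReal + η) ≤
            f x + ENNReal.ofReal (2 * η) := by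
          intro f k
          rw [ENNReal.ofReal_add ENNReal.toReal_nonneg hη.le, ENNReal.ofReal_toReal (Wt_ne_top _ _ _ _)]
          unfold Wt
          rw [two_mul, ENNReal.ofReal_add hη.le hη.le, ← add_assoc]
          gcongr
          exact Inf_le _ _ _
        rw [ENNReal.ofReal_mul (by positivity)]
        exact mul_le_mul' (key ρ k₁) (key g k₂)

theorem lower_lsc (φ : C(I × I, X)) {ρ g : X → ℝ≥0∞}
    (hρ : LowerSemicontinuous ρ) (hg : LowerSemicontinuous g)
    (hadmρ : LAdm (bottom φ) (top φ) (range φ) ρ) (hadmg : LAdm (left φ) (right φ) (range φ) g)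
    (hfin : μH[2] (range φ) ≠ ∞) (h1 : ∫⁻ x in range φ, ρ x ^ 2 ∂(μH[2] : Measure X) ≠ ∞)
    (h2 : ∫⁻ x in range φ, g x ^ 2 ∂(μH[2] : Measure X) ≠ ∞) :
    1 ≤ (∫⁻ x in range φ, ρ x ^ 2 ∂(μH[2] : Measure X)) *
      ∫⁻ x in range φ, g x ^ 2 ∂(μH[2] : Measure X) := by
  set ν : Measure X := (μH[2] : Measure X).restrict (range φ) with hν
  have : IsFiniteMeasure ν := ⟨by rw [hν, Measure.restrict_apply_univ]; exact lt_top_iff_ne_top.2 hfin⟩
  have hρm : Measurable ρ := hρ.measurable
  have hgm : Measurable g := hg.measurable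
  have hle1 : ∀ a : ℝ≥0∞, a ≤ 1 + a ^ 2 := by
    intro a
    rcases le_total a 1 with h | h
    · exact h.trans le_self_add
    · calc a = a * 1 := (mul_one a).symm
        _ ≤ a * a := by gcongr
        _ = a ^ 2 := (pow_two a).symm
        _ ≤ _ := le_add_self
  have hint : ∀ f : X → ℝ≥0∞, ∫⁻ x, f x ^ 2 ∂ν ≠ ∞ → ∫⁻ x, f x ∂ν ≠ ∞ := by
    intro f hf
    refine ne_top_of_le_ne_top ?_ (lintegral_mono fun x => hle1 (f x))
    rw [lintegral_add_left measurable_const, lintegral_const]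
    finiteness
  have hρ1 := hint ρ h1
  have hg1 := hint g h2
  -- Hoelder
  have hH : ∫⁻ x, ρ x * g x ∂ν ≤ (∫⁻ x, ρ x ^ 2 ∂ν) ^ (1 / 2 : ℝ) * (∫⁻ x, g x ^ 2 ∂ν) ^ (1 / 2 : ℝ) := by
    have := ENNReal.lintegral_mul_le_Lp_mul_Lq ν (p := 2) (q := 2)
      (by rw [Real.holderConjugate_iff]; norm_num) hρm.aemeasurable hgm.aemeasurable
    simpa only [Pi.mul_apply, ENNReal.rpow_ofNat] using this
  -- the limit
  have hlim : Tendsto (fun η : ℝ => ∫⁻ x, ρ x * g x ∂ν + ENNReal.ofReal (2 * η) *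
      (∫⁻ x, ρ x ∂ν + ∫⁻ x, g x ∂ν) + ENNReal.ofReal (2 * η) ^ 2 * ν univ) (𝓝[>] 0)
      (𝓝 (∫⁻ x, ρ x * g x ∂ν + 0 * (∫⁻ x, ρ x ∂ν + ∫⁻ x, g x ∂ν) + 0 ^ 2 * ν univ)) := by
    have h0 : Tendsto (fun η : ℝ => ENNReal.ofReal (2 * η)) (𝓝[>] 0) (𝓝 0) := by
      have : Tendsto (fun η : ℝ => ENNReal.ofReal (2 * η)) (𝓝 0) (𝓝 (ENNReal.ofReal (2 * 0))) :=
        ENNReal.tendsto_ofReal (tendsto_id.const_mul 2)
      rw [mul_zero, ENNReal.ofReal_zero] at this
      exact this.mono_left nhdsWithin_le_nhds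
    refine Tendsto.add (Tendsto.add tendsto_const_nhds ?_) ?_
    · exact ENNReal.Tendsto.mul_const h0 (Or.inr (by finiteness))
    · exact ENNReal.Tendsto.mul_const (ENNReal.Tendsto.pow h0) (Or.inr (by finiteness))
  have hlim2 : Tendsto (fun η : ℝ => ENNReal.ofReal ((1 - η) * (1 - η))) (𝓝[>] 0) (𝓝 1) := by
    have : Tendsto (fun η : ℝ => ENNReal.ofReal ((1 - η) * (1 - η))) (𝓝 0)
        (𝓝 (ENNReal.ofReal ((1 - 0) * (1 - 0)))) := by
      apply ENNReal.tendsto_ofReal
      exact ((continuous_const.sub continuous_id).mul (continuous_const.sub continuous_id)).tendsto 0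
    rw [sub_zero, mul_one, ENNReal.ofReal_one] at this
    exact this.mono_left nhdsWithin_le_nhds
  have hle : 1 ≤ ∫⁻ x, ρ x * g x ∂ν := by
    have h3 := le_of_tendsto_of_tendsto hlim2 hlim (by
      filter_upwards [Ioo_mem_nhdsGT (zero_lt_one (α := ℝ))] with η hη
      refine (lower_aux φ hρ hg hadmρ hadmg hη.1 hη.2).trans (le_of_eq ?_)
      have e : ∀ x, (ρ x + ENNReal.ofReal (2 * η)) * (g x + ENNReal.ofReal (2 * η)) =
          ρ x * g x + ENNReal.ofReal (2 * η) * (ρ x + g x) + ENNReal.ofReal (2 * η) ^ 2 := by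
        intro x; ring
      simp only [e]
      have hm1 : Measurable fun x => ρ x * g x := hρm.mul hgm
      have hm2 : Measurable fun x => ρ x + g x := hρm.add hgm
      rw [lintegral_add_right _ measurable_const, lintegral_add_left hm1,
        lintegral_const_mul _ hm2, lintegral_add_left hρm, lintegral_const])
    simpa using h3
  have h4 := hle.trans hH
  rw [← ENNReal.mul_rpow_of_nonneg _ _ (by norm_num)] at h4
  have h5 : (1 : ℝ≥0∞) ^ (2 : ℝ) ≤ (((∫⁻ x, ρ x ^ 2 ∂ν) * ∫⁻ x, g x ^ 2 ∂ν) ^ (1 / 2 : ℝ)) ^ (2 : ℝ) := by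
    gcongr
  rw [← ENNReal.rpow_mul, ENNReal.one_rpow] at h5
  norm_num at h5
  exact h5

end Pool.Agent.H250.MS
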