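import Mathlib
import Pool.Agent.H250.MS.Upper

/-!
The upper bound for the product of the moduli of the two families of a quadrilateral, main part.
-/

set_option autoImplicit false
set_option linter.unusedSectionVars false

open MeasureTheory Set Filter Topology Metric
open scoped ENNReal NNReal

namespace Pool.Agent.H250.MS

variable {X : Type*} [MetricSpace X] [MeasurableSpace X] [BorelSpace X]

/-- The constants of the maximal functions. -/
noncomputable def CC : ℕ → ℝ≥0∞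
  | 0 => 500000
  | (k + 1) => 2500 * ((k : ℝ≥0∞) + 1)

theorem CC_ne_zero (k : ℕ) : CC k ≠ 0 := by
  cases k with
  | zero => simp [CC]
  | succ k => simp [CC]

theorem CC_ne_top (k : ℕ) : CC k ≠ ∞ := by
  cases k with
  | zero => simp only [CC]; finiteness
  | succ k => simp only [CC]; finiteness

/-- frequently small balls are good after rescaling the radius -/
theorem freq_scale {ν : Measure X} {x : X} {c : ℝ≥0∞}
    (h : ∃ᶠ r in 𝓝[>] (0:ℝ), ν (ball x r) ≤ c * ENNReal.ofReal (r ^ 2)) :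
    ∃ᶠ r in 𝓝[>] (0:ℝ), ν (ball x (50 * r)) ≤ 2500 * c * ENNReal.ofReal (r ^ 2) := by
  have h1 : Tendsto (fun r : ℝ => r / 50) (𝓝[>] 0) (𝓝[>] 0) := by
    refine tendsto_nhdsWithin_iff.2 ⟨?_, ?_⟩
    · have : Tendsto (fun r : ℝ => r / 50) (𝓝 0) (𝓝 (0 / 50)) := tendsto_id.div_const 50
      rw [zero_div] at this
      exact this.mono_left nhdsWithin_le_nhds
    · filter_upwards [self_mem_nhdsWithin] with r hr
      have hr' : (0:ℝ) < r := hr
      exact div_pos hr' (by norm_num)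
  refine h1.frequently (h.mono fun r hr => ?_)
  rw [show (50 : ℝ) * (r / 50) = r by ring]
  refine hr.trans (le_of_eq ?_)
  rw [show (r / 50) ^ 2 = (1 / 2500) * r ^ 2 by ring, ENNReal.ofReal_mul (by norm_num),
    show (2500 : ℝ≥0∞) * c * (ENNReal.ofReal (1 / 2500) * ENNReal.ofReal (r ^ 2)) =
      (2500 * ENNReal.ofReal (1 / 2500)) * (c * ENNReal.ofReal (r ^ 2)) by ring]
  rw [show (2500 : ℝ≥0∞) = ENNReal.ofReal 2500 by simp, ← ENNReal.ofReal_mul (by norm_num)]
  norm_num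

theorem ev_scale {ν : Measure X} {x : X} {c : ℝ≥0∞}
    (h : ∀ᶠ r in 𝓝[>] (0:ℝ), ν (ball x r) ≤ c * ENNReal.ofReal (r ^ 2)) :
    ∀ᶠ r in 𝓝[>] (0:ℝ), ν (ball x (50 * r)) ≤ 2500 * c * ENNReal.ofReal (r ^ 2) := by
  have h1 : Tendsto (fun r : ℝ => 50 * r) (𝓝[>] 0) (𝓝[>] 0) := by
    refine tendsto_nhdsWithin_iff.2 ⟨?_, ?_⟩
    · have : Tendsto (fun r : ℝ => 50 * r) (𝓝 0) (𝓝 (50 * 0)) := tendsto_id.const_mul 50
      rw [mul_zero] at this
      exact this.mono_left nhdsWithin_le_nhds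
    · filter_upwards [self_mem_nhdsWithin] with r hr
      have hr' : (0:ℝ) < r := hr
      exact mul_pos (by norm_num) hr'
  filter_upwards [h1.eventually h] with r hr
  refine hr.trans (le_of_eq ?_)
  rw [mul_pow, ENNReal.ofReal_mul (by norm_num)]
  norm_num
  ring

theorem upper_bound {K S1 S2 S3 S4 : Set X} (ν : Measure X) [IsFiniteMeasure ν]
    {d : ℝ} (hd : 0 < d) (h13 : ∀ x ∈ S1, ∀ y ∈ S3, d ≤ dist x y)
    (h24 : ∀ x ∈ S2, ∀ y ∈ S4, d ≤ dist x y)
    (hcross : ∀ (L : ℝ) (γ : ℝ → X) (L' : ℝ) (σ : ℝ → X), 0 ≤ L → LipschitzWith 1 γ →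
      (∀ t ∈ Icc 0 L, γ t ∈ K) → γ 0 ∈ S1 → γ L ∈ S3 → 0 ≤ L' → LipschitzWith 1 σ →
      (∀ t ∈ Icc 0 L', σ t ∈ K) → σ 0 ∈ S2 → σ L' ∈ S4 →
      ∃ s ∈ Icc 0 L, ∃ t ∈ Icc 0 L', γ s = σ t)
    {B : Set X} (hB : ν B = 0)
    (hgood : ∀ x ∈ K, x ∉ B → ∀ᶠ r in 𝓝[>] (0:ℝ), ν (ball x r) ≤ 200 * ENNReal.ofReal (r ^ 2))
    (hbad : ∀ x ∈ K, x ∈ B → ∃ n : ℕ, ∃ᶠ r in 𝓝[>] (0:ℝ), ν (ball x r) ≤ n * ENNReal.ofReal (r ^ 2)) :
    LMod ν S1 S3 K * LMod ν S2 S4 K ≤ (8 * 500000 ^ 2 + 1) / 25 := by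
  classical
  set M := LMod ν S1 S3 K with hMdef
  have hMfin : M ≠ ∞ := LMod_ne_top hd h13
  rcases eq_or_ne M 0 with hM0 | hM0
  · rw [hM0, zero_mul]; exact bot_le
  -- the extremal function
  obtain ⟨ρ₀, hρ₀m, hρ₀M, hρ₀⟩ := exists_extremal ν {ρ | Measurable ρ ∧ LAdm S1 S3 K ρ}
    (fun ρ hρ => hρ.1)
    (by
      rintro ρ₁ ⟨m1, a1⟩ ρ₂ ⟨m2, a2⟩ a b hab
      refine ⟨(m1.const_mul _).add (m2.const_mul _), ?_⟩
      intro L γ hL hγ hG h0 h1
      have e1 := a1 L γ hL hγ hG h0 h1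
      have e2 := a2 L γ hL hγ hG h0 h1
      have hγm : Measurable γ := hγ.continuous.measurable
      have m1' : Measurable fun t => ρ₁ (γ t) := m1.comp hγm
      have m2' : Measurable fun t => ρ₂ (γ t) := m2.comp hγm
      show 1 ≤ ∫⁻ t in Icc 0 L, (a * ρ₁ (γ t) + b * ρ₂ (γ t))
      rw [lintegral_add_left (m1'.const_mul _), lintegral_const_mul _ m1',
        lintegral_const_mul _ m2']
      calc (1 : ℝ≥0∞) = a * 1 + b * 1 := by rw [mul_one, mul_one, hab]
        _ ≤ _ := by gcongr)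
    M (fun ρ hρ => LMod_le hρ.1 hρ.2)
    (by
      intro c hc
      rw [hMdef, LMod] at hc
      simp only [iInf_lt_iff] at hc
      obtain ⟨ρ, h1, h2, h3⟩ := hc
      exact ⟨ρ, ⟨h1, h2⟩, h3⟩) hMfin
  have hρ₀fin : ∫⁻ x, ρ₀ x ^ 2 ∂ν ≠ ∞ := ne_top_of_le_ne_top hMfin hρ₀M
  -- the open sets
  set ε : ℕ → ℝ≥0∞ := fun k => M / (8 * CC (k + 1) ^ 2 * 2 ^ (k + 1)) with hε
  have hεpos : ∀ k, ε k ≠ 0 := fun k => by
    simp only [hε, ne_eq, ENNReal.div_eq_zero_iff, hM0, false_or]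
    have := CC_ne_top (k + 1)
    finiteness
  have hU : ∀ k, ∃ U, IsOpen U ∧ B ⊆ U ∧ ∫⁻ x in U, ρ₀ x ^ 2 ∂ν ≤ ε k := by
    intro k
    have : IsFiniteMeasure (ν.withDensity fun x => ρ₀ x ^ 2) := isFiniteMeasure_withDensity hρ₀fin
    have h0 : (ν.withDensity fun x => ρ₀ x ^ 2) B = 0 :=
      (withDensity_absolutelyContinuous ν _) hB
    obtain ⟨U, hBU, hUo, hUlt⟩ := B.exists_isOpen_lt_of_lt (μ := ν.withDensity fun x => ρ₀ x ^ 2) (ε k)
      (by rw [h0]; exact pos_iff_ne_zero.2 (hεpos k))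
    refine ⟨U, hUo, hBU, ?_⟩
    rw [withDensity_apply _ hUo.measurableSet] at hUlt
    exact hUlt.le
  choose U hUo hBU hUε using hU
  -- the functions
  let f : ℕ → X → ℝ≥0∞ := fun k => match k with
    | 0 => ρ₀
    | (k + 1) => (U k).indicator ρ₀
  have hfm : ∀ k, Measurable (f k) := by
    intro k
    cases k with
    | zero => exact hρ₀m
    | succ k => exact hρ₀m.indicator (hUo k).measurableSet
  set h : X → ℝ≥0∞ := fun y => ⨆ k, MF ν (CC k) (f k) y with hh
  have hhm : Measurable h := Measurable.iSup fun k => measurable_MF _ _ _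
  have hh2 : ∫⁻ y, h y ^ 2 ∂ν ≤ (8 * 500000 ^ 2 + 1) * M := by
    calc ∫⁻ y, h y ^ 2 ∂ν ≤ ∫⁻ y, ∑' k, MF ν (CC k) (f k) y ^ 2 ∂ν :=
          lintegral_mono fun y => sq_iSup_le _
      _ = ∑' k, ∫⁻ y, MF ν (CC k) (f k) y ^ 2 ∂ν :=
          lintegral_tsum fun k => ((measurable_MF _ _ _).pow_const 2).aemeasurable
      _ ≤ ∑' k, 8 * CC k ^ 2 * ∫⁻ x, f k x ^ 2 ∂ν :=
          ENNReal.tsum_le_tsum fun k => strong_MF ν (CC_ne_zero k) (CC_ne_top k) (hfm k)
      _ = 8 * CC 0 ^ 2 * ∫⁻ x, f 0 x ^ 2 ∂ν +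
          ∑' k, 8 * CC (k + 1) ^ 2 * ∫⁻ x, f (k + 1) x ^ 2 ∂ν := tsum_eq_zero_add' ENNReal.summable
      _ ≤ 8 * 500000 ^ 2 * M + ∑' k : ℕ, M * (2⁻¹) ^ (k + 1) := by
          refine add_le_add ?_ (ENNReal.tsum_le_tsum fun k => ?_)
          · have : ∫⁻ x, f 0 x ^ 2 ∂ν ≤ M := hρ₀M
            have h500 : CC 0 = 500000 := rfl
            rw [h500]
            gcongr
          · calc 8 * CC (k + 1) ^ 2 * ∫⁻ x, f (k + 1) x ^ 2 ∂ν ≤ 8 * CC (k + 1) ^ 2 * ε k := by
                  gcongr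
                  refine le_trans (le_of_eq ?_) (hUε k)
                  rw [← lintegral_indicator (hUo k).measurableSet]
                  refine lintegral_congr fun x => ?_
                  simp only [f, indicator_apply]
                  split_ifs <;> simp
              _ = M * (2⁻¹) ^ (k + 1) := by
                  have h1 := CC_ne_top (k + 1)
                  have h2 := CC_ne_zero (k + 1)
                  simp only [hε]
                  rw [ENNReal.div_eq_inv_mul, ENNReal.mul_inv (Or.inr (by finiteness))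
                    (Or.inl (by finiteness)), ENNReal.inv_pow, mul_comm _ M, ← mul_assoc, mul_comm _ M,
                    mul_assoc, ← mul_assoc (8 * CC (k + 1) ^ 2)]
                  rw [ENNReal.mul_inv_cancel (by simp [h2]) (by finiteness), one_mul]
      _ = (8 * 500000 ^ 2 + 1) * M := by
          rw [ENNReal.tsum_mul_left]
          have : ∑' k : ℕ, (2⁻¹ : ℝ≥0∞) ^ (k + 1) = 1 := by
            rw [ENNReal.tsum_geometric_add_one, ENNReal.one_sub_inv_two, inv_inv,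
              ENNReal.inv_mul_cancel (by norm_num) (by norm_num)]
          rw [this]; ring
  -- choice of radii
  set R₀ : ℝ := min 1 (d / 5) with hR₀
  have hR₀pos : 0 < R₀ := lt_min one_pos (by positivity)
  have hrad : ∀ x ∈ K, ∃ r : ℝ, 0 < r ∧ r < R₀ ∧ ∀ y ∈ ball x r, Avg ν ρ₀ (x, r) ≤ h y := by
    intro x hx
    have hev : ∀ᶠ r in 𝓝[>] (0:ℝ), 0 < r ∧ r < R₀ := by
      filter_upwards [Ioo_mem_nhdsGT hR₀pos] with r hr using hr
    by_cases hxB : x ∈ B
    · obtain ⟨n, hn⟩ := hbad x hx hxB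
      obtain ⟨δ, hδ, hδU⟩ := Metric.isOpen_iff.1 (hUo n) x (hBU n hxB)
      have hev2 : ∀ᶠ r in 𝓝[>] (0:ℝ), r < δ / 10 := by
        filter_upwards [Ioo_mem_nhdsGT (show 0 < δ / 10 by positivity)] with r hr using hr.2
      obtain ⟨r, h1, ⟨h2, h3⟩, h4⟩ := ((freq_scale hn).and_eventually (hev.and hev2)).exists
      refine ⟨r, h2, h3, fun y hy => ?_⟩
      have hG : (x, r) ∈ Good ν (CC (n + 1)) := by
        refine ⟨h2, h3.le.trans (min_le_left _ _), h1.trans ?_⟩
        simp only [CC]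
        gcongr
        exact le_self_add
      have hA : Avg ν ρ₀ (x, r) = Avg ν (f (n + 1)) (x, r) := by
        unfold Avg
        congr 1
        refine setLIntegral_congr_fun measurableSet_ball fun z hz => ?_
        simp only [f]
        rw [indicator_of_mem]
        exact hδU (ball_subset_ball (by simp only; linarith) hz)
      rw [hA]
      exact (le_MF hG hy).trans (le_iSup (fun k => MF ν (CC k) (f k) y) (n + 1))
    · obtain ⟨r, h1, h2, h3⟩ := ((ev_scale (hgood x hx hxB)).and hev).exists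
      refine ⟨r, h2, h3, fun y hy => ?_⟩
      have hG : (x, r) ∈ Good ν (CC 0) := by
        refine ⟨h2, h3.le.trans (min_le_left _ _), h1.trans ?_⟩
        simp only [CC]
        gcongr
        norm_num
      exact (le_MF hG hy).trans (le_iSup (fun k => MF ν (CC k) (f k) y) 0)
  -- the main estimate
  have main : ∀ (L : ℝ) (γ : ℝ → X), 0 ≤ L → LipschitzWith 1 γ → (∀ t ∈ Icc 0 L, γ t ∈ K) →
      γ 0 ∈ S2 → γ L ∈ S4 → 5 * M ≤ ∫⁻ t in Icc 0 L, h (γ t) := by
    intro L γ hL hγ hγK h0 h1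
    have hLd := length_ge h24 hL hγ h0 h1
    choose! r hr0 hrR hrh using hrad
    have hcomp : IsCompact (γ '' Icc 0 L) := isCompact_Icc.image hγ.continuous
    have hsubK : ∀ x ∈ γ '' Icc 0 L, x ∈ K := by rintro _ ⟨t, ht, rfl⟩; exact hγK t ht
    obtain ⟨T, hT1, hT2⟩ := hcomp.elim_nhds_subcover (fun x => ball x (r x))
      (fun x hx => ball_mem_nhds x (hr0 x (hsubK x hx)))
    obtain ⟨u, huT, hdisj, hcov⟩ := Vitali.exists_disjoint_subfamily_covering_enlargement_ball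
      (T : Set X) (fun x => x) r R₀ (fun a ha => (hrR a (hsubK a (hT1 a ha))).le) 5 (by norm_num)
    have hufin : u.Finite := T.finite_toSet.subset huT
    set v : Finset X := hufin.toFinset with hv
    have hvmem : ∀ b, b ∈ v ↔ b ∈ u := fun b => hufin.mem_toFinset
    have hvK : ∀ b ∈ v, b ∈ γ '' Icc 0 L := fun b hb => hT1 b (huT ((hvmem b).1 hb))
    have hcover : ∀ t ∈ Icc 0 L, ∃ b ∈ v, γ t ∈ ball b (5 * r b) := by
      intro t ht
      obtain ⟨a, ha, hta⟩ := mem_iUnion₂.1 (hT2 (mem_image_of_mem γ ht))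
      obtain ⟨b, hb, hsub⟩ := hcov a ha
      exact ⟨b, (hvmem b).2 hb, hsub hta⟩
    have hadm := ladm_balls (G := K) h13 v r (fun b hb => hr0 b (hsubK b (hvK b hb)))
      (fun b hb => by
        have := (hrR b (hsubK b (hvK b hb))).le.trans (min_le_right _ _)
        linarith)
      (fun L' σ hL' hσ hσK e0 e1 => by
        obtain ⟨s, hs, t, ht, hst⟩ := hcross L' σ L γ hL' hσ hσK e0 e1 hL hγ hγK h0 h1
        obtain ⟨b, hb, hbt⟩ := hcover t ht
        exact ⟨s, hs, b, hb, by rw [hst]; exact hbt⟩)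
    have hmeas : Measurable (fun y => ∑ b ∈ v, (ball b (10 * r b)).indicator
        (fun _ => (ENNReal.ofReal (5 * r b))⁻¹) y) :=
      Finset.measurable_fun_sum _ fun b _ => measurable_const.indicator measurableSet_ball
    have hfin2 : ∫⁻ y, (∑ b ∈ v, (ball b (10 * r b)).indicator
        (fun _ => (ENNReal.ofReal (5 * r b))⁻¹) y) ^ 2 ∂ν ≠ ∞ := by
      have hb : ∀ y, (∑ b ∈ v, (ball b (10 * r b)).indicator
        (fun _ => (ENNReal.ofReal (5 * r b))⁻¹) y) ^ 2 ≤ (∑ b ∈ v, (ENNReal.ofReal (5 * r b))⁻¹) ^ 2 := by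
        intro y
        gcongr with b hb
        exact indicator_le_self' (fun _ _ => bot_le) y
      refine ne_top_of_le_ne_top ?_ (lintegral_mono hb)
      rw [lintegral_const]
      have : ∑ b ∈ v, (ENNReal.ofReal (5 * r b))⁻¹ ≠ ∞ := by
        refine ENNReal.sum_ne_top.2 fun b hb => ?_
        have h2 := hr0 b (hsubK b (hvK b hb))
        exact ENNReal.inv_ne_top.2 (ENNReal.ofReal_pos.2 (by positivity)).ne'
      finiteness
    have hMle := hρ₀ _ ⟨hmeas, hadm⟩ hfin2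
    -- compute the right side
    have hsum : ∫⁻ x, (∑ b ∈ v, (ball b (10 * r b)).indicator
        (fun _ => (ENNReal.ofReal (5 * r b))⁻¹) x) * ρ₀ x ∂ν =
        ∑ b ∈ v, (ENNReal.ofReal (5 * r b))⁻¹ * ∫⁻ x in ball b (10 * r b), ρ₀ x ∂ν := by
      simp only [Finset.sum_mul]
      rw [lintegral_finsetSum]
      · refine Finset.sum_congr rfl fun b hb => ?_
        rw [← lintegral_const_mul _ hρ₀m, ← lintegral_indicator measurableSet_ball]
        refine lintegral_congr fun x => ?_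
        simp only [indicator_apply]
        split_ifs <;> simp
      · intro b _
        exact (measurable_const.indicator measurableSet_ball).mul hρ₀m
    have hterm : ∀ b ∈ v, 5 * ((ENNReal.ofReal (5 * r b))⁻¹ * ∫⁻ x in ball b (10 * r b), ρ₀ x ∂ν) =
        ENNReal.ofReal (r b) * Avg ν ρ₀ (b, r b) := by
      intro b hb
      have h2 := hr0 b (hsubK b (hvK b hb))
      have e0 : ENNReal.ofReal (r b) ≠ 0 := (ENNReal.ofReal_pos.2 h2).ne'
      have et : ENNReal.ofReal (r b) ≠ ∞ := ENNReal.ofReal_ne_top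
      unfold Avg
      rw [ENNReal.ofReal_mul (by norm_num), ENNReal.ofReal_ofNat, ENNReal.mul_inv (Or.inl (by norm_num))
        (Or.inl (by norm_num)), ENNReal.div_eq_inv_mul, ENNReal.ofReal_pow h2.le, sq,
        ENNReal.mul_inv (Or.inl e0) (Or.inl et), ← mul_assoc, ← mul_assoc, ← mul_assoc, ← mul_assoc,
        ENNReal.mul_inv_cancel (by norm_num) (by norm_num), one_mul, ENNReal.mul_inv_cancel e0 et,
        one_mul]
    -- lower bound for the integral along the curve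
    have htb : ∀ b ∈ v, ∃ t ∈ Icc 0 L, γ t = b := fun b hb => hvK b hb
    choose! τ hτ hτb using htb
    set I : X → Set ℝ := fun b => Icc 0 L ∩ Ioo (τ b - r b) (τ b + r b) with hI
    have hIball : ∀ b ∈ v, ∀ t ∈ I b, γ t ∈ ball b (r b) := by
      intro b hb t ht
      have h2 := hγ.dist_le_mul t (τ b)
      rw [NNReal.coe_one, one_mul, Real.dist_eq, hτb b hb] at h2
      rw [mem_ball]
      refine lt_of_le_of_lt h2 (abs_lt.2 ⟨by linarith [ht.2.1], by linarith [ht.2.2]⟩)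
    have hIdisj : (v : Set X).PairwiseDisjoint I := by
      intro a ha b hb hab
      have h2 : Disjoint (ball a (r a)) (ball b (r b)) :=
        hdisj ((hvmem a).1 ha) ((hvmem b).1 hb) hab
      rw [Function.onFun, Set.disjoint_left]
      intro t hta htb
      exact Set.disjoint_left.1 h2 (hIball a ha t hta) (hIball b hb t htb)
    have hlow : ∑ b ∈ v, ENNReal.ofReal (r b) * Avg ν ρ₀ (b, r b) ≤ ∫⁻ t in Icc 0 L, h (γ t) := by
      calc ∑ b ∈ v, ENNReal.ofReal (r b) * Avg ν ρ₀ (b, r b)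
          ≤ ∑ b ∈ v, ∫⁻ t in I b, h (γ t) := by
            refine Finset.sum_le_sum fun b hb => ?_
            have h2 := hr0 b (hsubK b (hvK b hb))
            have h3 := (hrR b (hsubK b (hvK b hb))).le.trans (min_le_right _ _)
            calc ENNReal.ofReal (r b) * Avg ν ρ₀ (b, r b) ≤ volume (I b) * Avg ν ρ₀ (b, r b) := by
                  gcongr
                  exact vol_lower (hτ b hb) h2 (by linarith)
              _ = ∫⁻ t in I b, Avg ν ρ₀ (b, r b) := by rw [setLIntegral_const, mul_comm]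
              _ ≤ ∫⁻ t in I b, h (γ t) :=
                  setLIntegral_mono' (measurableSet_Icc.inter measurableSet_Ioo) fun t ht =>
                    hrh b (hsubK b (hvK b hb)) _ (hIball b hb t ht)
        _ = ∫⁻ t in ⋃ b ∈ v, I b, h (γ t) := by
            rw [lintegral_biUnion_finset hIdisj (fun b _ => measurableSet_Icc.inter measurableSet_Ioo)]
        _ ≤ ∫⁻ t in Icc 0 L, h (γ t) :=
            lintegral_mono_set (iUnion₂_subset fun b _ => inter_subset_left)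
    calc 5 * M ≤ 5 * ∑ b ∈ v, (ENNReal.ofReal (5 * r b))⁻¹ * ∫⁻ x in ball b (10 * r b), ρ₀ x ∂ν := by
          gcongr; rw [← hsum]; exact hMle
      _ = ∑ b ∈ v, ENNReal.ofReal (r b) * Avg ν ρ₀ (b, r b) := by
          rw [Finset.mul_sum]
          exact Finset.sum_congr rfl hterm
      _ ≤ _ := hlow
  -- conclusion
  have hadm : LAdm S2 S4 K (fun y => (5 * M)⁻¹ * h y) := by
    intro L γ hL hγ hγK h0 h1
    have hm' : Measurable fun t => h (γ t) := hhm.comp hγ.continuous.measurable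
    show 1 ≤ ∫⁻ t in Icc 0 L, (5 * M)⁻¹ * h (γ t)
    rw [lintegral_const_mul _ hm']
    calc (1 : ℝ≥0∞) = (5 * M)⁻¹ * (5 * M) := by
          rw [ENNReal.inv_mul_cancel (by simp [hM0]) (by finiteness)]
      _ ≤ _ := by gcongr; exact main L γ hL hγ hγK h0 h1
  have hle := LMod_le (ν := ν) (hhm.const_mul _) hadm
  calc M * LMod ν S2 S4 K ≤ M * ∫⁻ x, ((5 * M)⁻¹ * h x) ^ 2 ∂ν := by gcongr
    _ = M * ((5 * M)⁻¹ ^ 2 * ∫⁻ x, h x ^ 2 ∂ν) := by
        congr 1
        simp only [mul_pow]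
        rw [lintegral_const_mul _ (hhm.pow_const 2)]
    _ ≤ M * ((5 * M)⁻¹ ^ 2 * ((8 * 500000 ^ 2 + 1) * M)) := by gcongr
    _ = (8 * 500000 ^ 2 + 1) / 25 := by
        rw [ENNReal.mul_inv (Or.inl (by norm_num)) (Or.inl (by norm_num)), ENNReal.div_eq_inv_mul]
        have e : (25 : ℝ≥0∞)⁻¹ = 5⁻¹ * 5⁻¹ := by
          rw [← ENNReal.mul_inv (Or.inl (by norm_num)) (Or.inl (by norm_num))]; norm_num
        rw [e]
        calc M * ((5⁻¹ * M⁻¹) ^ 2 * ((8 * 500000 ^ 2 + 1) * M))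
            = (M * M⁻¹) * (M * M⁻¹) * (5⁻¹ * 5⁻¹ * (8 * 500000 ^ 2 + 1)) := by ring
          _ = _ := by rw [ENNReal.mul_inv_cancel hM0 hMfin]; ring

end Pool.Agent.H250.MS
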