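import Mathlib
import Pool.Agent.H250.MS.Low2
import Pool.Agent.H250.MS.Upper2
import Pool.Agent.H250.MS.Dens

/-!
Crossing of the two families of curves of a quadrilateral, and the upper bound.
-/

set_option autoImplicit false
set_option linter.unusedSectionVars false

open MeasureTheory Set Filter Topology Metric
open scoped ENNReal NNReal unitInterval

namespace Pool.Agent.H250.MS

variable {X : Type*} [MetricSpace X]

/-- clamping to an interval -/
noncomputable def cl (L t : ℝ) : ℝ := max 0 (min t L)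

theorem continuous_cl (L : ℝ) : Continuous (cl L) := by unfold cl; fun_prop

theorem cl_mem {L : ℝ} (hL : 0 ≤ L) (t : ℝ) : cl L t ∈ Icc 0 L :=
  ⟨le_max_left _ _, max_le hL (min_le_right _ _)⟩

theorem cl_of_mem {L t : ℝ} (ht : t ∈ Icc 0 L) : cl L t = t := by
  unfold cl; rw [min_eq_left ht.2, max_eq_right ht.1]

theorem cl_of_neg {L t : ℝ} (ht : t ≤ 0) : cl L t = 0 := by
  unfold cl; exact max_eq_left ((min_le_left _ _).trans ht)

theorem cl_of_gt {L t : ℝ} (hL : 0 ≤ L) (ht : L ≤ t) : cl L t = L := by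
  unfold cl; rw [min_eq_right ht, max_eq_right hL]

theorem lift_path (φ : C(I × I, X)) (hφ : Function.Injective φ) {L : ℝ} (hL : 0 ≤ L) {γ : ℝ → X}
    (hγ : Continuous γ) (h : ∀ t ∈ Icc 0 L, γ t ∈ range φ) :
    ∃ g : ℝ → I × I, Continuous g ∧ ∀ t, φ (g t) = γ (cl L t) := by
  have hemb : IsEmbedding φ := (φ.continuous.isClosedEmbedding hφ).isEmbedding
  let e : I × I ≃ₜ range φ := hemb.toHomeomorph
  have hc : Continuous fun t => (⟨γ (cl L t), h _ (cl_mem hL t)⟩ : range φ) :=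
    Continuous.subtype_mk (hγ.comp (continuous_cl L)) _
  refine ⟨fun t => e.symm ⟨γ (cl L t), h _ (cl_mem hL t)⟩, e.symm.continuous.comp hc, fun t => ?_⟩
  have := e.apply_symm_apply ⟨γ (cl L t), h _ (cl_mem hL t)⟩
  exact congrArg Subtype.val this

theorem crossing (φ : C(I × I, X)) (hφ : Function.Injective φ) {L L' : ℝ} {γ τ : ℝ → X}
    (hL : 0 ≤ L) (hγ : Continuous γ) (hγK : ∀ t ∈ Icc 0 L, γ t ∈ range φ) (h0 : γ 0 ∈ bottom φ)
    (h1 : γ L ∈ top φ) (hL' : 0 ≤ L') (hτ : Continuous τ) (hτK : ∀ t ∈ Icc 0 L', τ t ∈ range φ)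
    (h2 : τ 0 ∈ left φ) (h3 : τ L' ∈ right φ) :
    ∃ s ∈ Icc 0 L, ∃ t ∈ Icc 0 L', γ s = τ t := by
  obtain ⟨g, hg, hgφ⟩ := lift_path φ hφ hL hγ hγK
  obtain ⟨g', hg', hgφ'⟩ := lift_path φ hφ hL' hτ hτK
  have e0 : ∀ t, t ≤ 0 → ((g t).2 : ℝ) = 0 := by
    intro t ht
    obtain ⟨s, hs⟩ := h0
    have h4 := hgφ t
    rw [cl_of_neg ht, ← hs] at h4
    rw [hφ h4]; rfl
  have e1 : ∀ t, L ≤ t → ((g t).2 : ℝ) = 1 := by
    intro t ht
    obtain ⟨s, hs⟩ := h1
    have h4 := hgφ t
    rw [cl_of_gt hL ht, ← hs] at h4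
    rw [hφ h4]; rfl
  have e2 : ∀ t, t ≤ 0 → ((g' t).1 : ℝ) = 0 := by
    intro t ht
    obtain ⟨s, hs⟩ := h2
    have h4 := hgφ' t
    rw [cl_of_neg ht, ← hs] at h4
    rw [hφ h4]; rfl
  have e3 : ∀ t, L' ≤ t → ((g' t).1 : ℝ) = 1 := by
    intro t ht
    obtain ⟨s, hs⟩ := h3
    have h4 := hgφ' t
    rw [cl_of_gt hL' ht, ← hs] at h4
    rw [hφ h4]; rfl
  have b1 : ∀ t, 0 ≤ ((g t).1 : ℝ) ∧ ((g t).1 : ℝ) ≤ 1 := fun t => ⟨(g t).1.2.1, (g t).1.2.2⟩
  have b2 : ∀ t, 0 ≤ ((g t).2 : ℝ) ∧ ((g t).2 : ℝ) ≤ 1 := fun t => ⟨(g t).2.2.1, (g t).2.2.2⟩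
  have b3 : ∀ t, 0 ≤ ((g' t).1 : ℝ) ∧ ((g' t).1 : ℝ) ≤ 1 := fun t => ⟨(g' t).1.2.1, (g' t).1.2.2⟩
  have b4 : ∀ t, 0 ≤ ((g' t).2 : ℝ) ∧ ((g' t).2 : ℝ) ≤ 1 := fun t => ⟨(g' t).2.2.1, (g' t).2.2.2⟩
  have hF : Continuous fun p : ℝ × ℝ =>
      (((((g p.2).2 : ℝ) + (p.2 - cl L p.2) - ((g' p.1).2 : ℝ) : ℝ)) : ℂ) +
      (((((g' p.1).1 : ℝ) + (p.1 - cl L' p.1) - ((g p.2).1 : ℝ) : ℝ)) : ℂ) * Complex.I := by
    have c1 := continuous_cl L
    have c2 := continuous_cl L'
    fun_prop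
  obtain ⟨t, ht, s, hs, hst⟩ := Pool.Agent.H250.Mir.miranda hF (a := -1) (b := L' + 1) (c := -1)
    (d := L + 1) (by linarith) (by linarith)
    (fun t _ => by
      have h5 := e0 (-1) (by norm_num)
      have h6 := cl_of_neg (L := L) (t := -1) (by norm_num)
      have h7 := b4 t
      simp only [Complex.add_re, Complex.ofReal_re, Complex.mul_re, Complex.I_re, Complex.ofReal_im,
        Complex.I_im, h5, h6]
      linarith)
    (fun t _ => by
      have h5 := e1 (L + 1) (by linarith)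
      have h6 := cl_of_gt (t := L + 1) hL (by linarith)
      have h7 := b4 t
      simp only [Complex.add_re, Complex.ofReal_re, Complex.mul_re, Complex.I_re, Complex.ofReal_im,
        Complex.I_im, h5, h6]
      linarith)
    (fun t _ => by
      have h5 := e2 (-1) (by norm_num)
      have h6 := cl_of_neg (L := L') (t := -1) (by norm_num)
      have h7 := b1 t
      simp only [Complex.add_im, Complex.ofReal_im, Complex.mul_im, Complex.I_re, Complex.ofReal_re,
        Complex.I_im, h5, h6]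
      linarith)
    (fun t _ => by
      have h5 := e3 (L' + 1) (by linarith)
      have h6 := cl_of_gt (t := L' + 1) hL' (by linarith)
      have h7 := b1 t
      simp only [Complex.add_im, Complex.ofReal_im, Complex.mul_im, Complex.I_re, Complex.ofReal_re,
        Complex.I_im, h5, h6]
      linarith)
  have f1 := congrArg Complex.re hst
  have f2 := congrArg Complex.im hst
  simp only [Complex.add_re, Complex.ofReal_re, Complex.mul_re, Complex.I_re, Complex.ofReal_im,
    Complex.I_im, Complex.add_im, Complex.mul_im, Complex.zero_re, Complex.zero_im] at f1 f2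
  have hs' : s ∈ Icc 0 L := by
    constructor
    · by_contra hneg
      push Not at hneg
      have h5 := e0 s hneg.le
      have h6 := cl_of_neg (L := L) hneg.le
      have h7 := b4 t
      rw [h5, h6] at f1
      linarith
    · by_contra hneg
      push Not at hneg
      have h5 := e1 s hneg.le
      have h6 := cl_of_gt hL hneg.le
      have h7 := b4 t
      rw [h5, h6] at f1
      linarith
  have ht' : t ∈ Icc 0 L' := by
    constructor
    · by_contra hneg
      push Not at hneg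
      have h5 := e2 t hneg.le
      have h6 := cl_of_neg (L := L') hneg.le
      have h7 := b1 s
      rw [h5, h6] at f2
      linarith
    · by_contra hneg
      push Not at hneg
      have h5 := e3 t hneg.le
      have h6 := cl_of_gt hL' hneg.le
      have h7 := b1 s
      rw [h5, h6] at f2
      linarith
  refine ⟨s, hs', t, ht', ?_⟩
  rw [cl_of_mem hs', sub_self] at f1
  rw [cl_of_mem ht', sub_self] at f2
  have h8 : g s = g' t := by
    refine Prod.ext (Subtype.ext ?_) (Subtype.ext ?_) <;> linarith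
  have h9 := hgφ s
  rw [cl_of_mem hs'] at h9
  have h10 := hgφ' t
  rw [cl_of_mem ht'] at h10
  rw [← h9, ← h10, h8]

theorem sides_dist (φ : C(I × I, X)) (hφ : Function.Injective φ) :
    ∃ d : ℝ, 0 < d ∧ (∀ x ∈ bottom φ, ∀ y ∈ top φ, d ≤ dist x y) ∧
      (∀ x ∈ left φ, ∀ y ∈ right φ, d ≤ dist x y) := by
  obtain ⟨p, _, hp⟩ := isCompact_univ.exists_isMinOn (univ_nonempty (α := I × I))
    (f := fun p : I × I => dist (φ (p.1, 0)) (φ (p.2, 1))) (by fun_prop)
  obtain ⟨q, _, hq⟩ := isCompact_univ.exists_isMinOn (univ_nonempty (α := I × I))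
    (f := fun p : I × I => dist (φ (0, p.1)) (φ (1, p.2))) (by fun_prop)
  have h01 : (0 : I) ≠ 1 := by
    intro h; exact zero_ne_one (congrArg Subtype.val h)
  have hp0 : 0 < dist (φ (p.1, 0)) (φ (p.2, 1)) := by
    rw [dist_pos]; intro h
    exact h01 (congrArg Prod.snd (hφ h))
  have hq0 : 0 < dist (φ (0, q.1)) (φ (1, q.2)) := by
    rw [dist_pos]; intro h
    exact h01 (congrArg Prod.fst (hφ h))
  refine ⟨min _ _, lt_min hp0 hq0, ?_, ?_⟩
  · rintro _ ⟨s, rfl⟩ _ ⟨t, rfl⟩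
    exact (min_le_left _ _).trans (hp (mem_univ (s, t)))
  · rintro _ ⟨s, rfl⟩ _ ⟨t, rfl⟩
    exact (min_le_right _ _).trans (hq (mem_univ (s, t)))

variable [MeasurableSpace X] [BorelSpace X]

/-- The upper bound for quadrilaterals. -/
theorem quad_upper (φ : C(I × I, X)) (hφ : Function.Injective φ)
    (hfin : μH[2] (range φ) ≠ ∞)
    (hden : ∀ x ∈ range φ, ∃ n : ℕ, ∃ᶠ r in 𝓝[>] (0:ℝ),
      (μH[2] : Measure X) (ball x r) ≤ n * ENNReal.ofReal (r ^ 2)) :
    LMod ((μH[2] : Measure X).restrict (range φ)) (bottom φ) (top φ) (range φ) *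
      LMod ((μH[2] : Measure X).restrict (range φ)) (left φ) (right φ) (range φ) ≤
      (8 * 500000 ^ 2 + 1) / 25 := by
  have hK : IsCompact (range φ) := isCompact_range φ.continuous
  have hfm : IsFiniteMeasure ((μH[2] : Measure X).restrict (range φ)) :=
    ⟨by rw [Measure.restrict_apply_univ]; exact lt_top_iff_ne_top.2 hfin⟩
  obtain ⟨d, hd, h13, h24⟩ := sides_dist φ hφ
  refine upper_bound _ hd h13 h24 ?_ (B := Bad (range φ)) ?_ ?_ ?_
  · intro L γ L' τ hL hγ hγK h0 h1 hL' hτ hτK h2 h3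
    exact crossing φ hφ hL hγ.continuous hγK h0 h1 hL' hτ.continuous hτK h2 h3
  · exact le_antisymm ((Measure.restrict_apply_le _ _).trans (bad_null hK.measurableSet hfin).le) bot_le
  · intro x hx hxB
    have : ¬ ∃ᶠ r in 𝓝[>] (0:ℝ),
      200 * ENNReal.ofReal (r ^ 2) < ((μH[2] : Measure X).restrict (range φ)) (ball x r) :=
      fun h => hxB ⟨hx, h⟩
    rw [not_frequently] at this
    filter_upwards [this] with r hr
    exact not_lt.1 hr
  · intro x hx _
    obtain ⟨n, hn⟩ := hden x hx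
    exact ⟨n, hn.mono fun r hr => (Measure.restrict_apply_le _ _).trans hr⟩

end Pool.Agent.H250.MS
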