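import Mathlib
import Pool.Agent.H250.MS.Cross

/-!
The lower bound for all Borel admissible functions.
-/

set_option autoImplicit false
set_option linter.unusedSectionVars false

open MeasureTheory Set Filter Topology Metric
open scoped ENNReal NNReal unitInterval

namespace Pool.Agent.H250.MS

variable {X : Type*} [MetricSpace X] [MeasurableSpace X] [BorelSpace X]

theorem LAdm.mono' {E F G : Set X} {ρ ρ' : X → ℝ≥0∞} (h : LAdm E F G ρ) (hle : ∀ x, ρ x ≤ ρ' x) :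
    LAdm E F G ρ' := by
  intro L γ hL hγ hG h0 h1
  exact (h L γ hL hγ hG h0 h1).trans (lintegral_mono fun t => hle _)

/-- lower semicontinuous majorants of admissible functions -/
theorem lsc_major (ν : Measure X) [IsFiniteMeasure ν] {E F G : Set X} {ρ : X → ℝ≥0∞}
    (hρ : Measurable ρ) (h : LAdm E F G ρ) {ε : ℝ≥0∞} (hε : ε ≠ 0) :
    ∃ ρ' : X → ℝ≥0∞, LowerSemicontinuous ρ' ∧ LAdm E F G ρ' ∧
      ∫⁻ x, ρ' x ^ 2 ∂ν ≤ ∫⁻ x, ρ x ^ 2 ∂ν + ε := by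
  obtain ⟨g, hg1, hg2, hg3⟩ := exists_le_lowerSemicontinuous_lintegral_ge ν
    (fun x => ρ x ^ 2) (hρ.pow_const 2) hε
  have hsq : ∀ a : ℝ≥0∞, (a ^ (1 / 2 : ℝ)) ^ 2 = a := by
    intro a
    rw [← ENNReal.rpow_natCast, ← ENNReal.rpow_mul]; norm_num
  have hsq' : ∀ a : ℝ≥0∞, (a ^ 2) ^ (1 / 2 : ℝ) = a := by
    intro a
    rw [← ENNReal.rpow_natCast, ← ENNReal.rpow_mul]; norm_num
  refine ⟨fun x => (g x) ^ (1 / 2 : ℝ), ?_, h.mono' fun x => ?_, ?_⟩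
  · have hmono : Monotone fun a : ℝ≥0∞ => a ^ (1 / 2 : ℝ) :=
      ENNReal.monotone_rpow_of_nonneg (by norm_num)
    exact ENNReal.continuous_rpow_const.comp_lowerSemicontinuous hg2 hmono
  · rw [← hsq' (ρ x)]
    exact ENNReal.rpow_le_rpow (hg1 x) (by norm_num)
  · simp only [hsq]; exact hg3

theorem lower_meas (φ : C(I × I, X)) {ρ g : X → ℝ≥0∞}
    (hρ : Measurable ρ) (hg : Measurable g)
    (hadmρ : LAdm (bottom φ) (top φ) (range φ) ρ) (hadmg : LAdm (left φ) (right φ) (range φ) g)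
    (hfin : μH[2] (range φ) ≠ ∞) (h1 : ∫⁻ x in range φ, ρ x ^ 2 ∂(μH[2] : Measure X) ≠ ∞)
    (h2 : ∫⁻ x in range φ, g x ^ 2 ∂(μH[2] : Measure X) ≠ ∞) :
    1 ≤ (∫⁻ x in range φ, ρ x ^ 2 ∂(μH[2] : Measure X)) *
      ∫⁻ x in range φ, g x ^ 2 ∂(μH[2] : Measure X) := by
  have hfm : IsFiniteMeasure ((μH[2] : Measure X).restrict (range φ)) :=
    ⟨by rw [Measure.restrict_apply_univ]; exact lt_top_iff_ne_top.2 hfin⟩
  set A := ∫⁻ x in range φ, ρ x ^ 2 ∂(μH[2] : Measure X) with hA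
  set B := ∫⁻ x in range φ, g x ^ 2 ∂(μH[2] : Measure X) with hB
  have key : ∀ ε : ℝ, 0 < ε → 1 ≤ (A + ENNReal.ofReal ε) * (B + ENNReal.ofReal ε) := by
    intro ε hε
    have hε' : ENNReal.ofReal ε ≠ 0 := (ENNReal.ofReal_pos.2 hε).ne'
    obtain ⟨ρ', a1, a2, a3⟩ := lsc_major ((μH[2] : Measure X).restrict (range φ)) hρ hadmρ hε'
    obtain ⟨g', b1, b2, b3⟩ := lsc_major ((μH[2] : Measure X).restrict (range φ)) hg hadmg hε'
    have h3 := lower_lsc φ a1 b1 a2 b2 hfin (ne_top_of_le_ne_top (by finiteness) a3)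
      (ne_top_of_le_ne_top (by finiteness) b3)
    exact h3.trans (mul_le_mul' a3 b3)
  have h0 : Tendsto (fun η : ℝ => ENNReal.ofReal η) (𝓝[>] 0) (𝓝 0) := by
    have : Tendsto (fun η : ℝ => ENNReal.ofReal η) (𝓝 0) (𝓝 (ENNReal.ofReal 0)) :=
      ENNReal.tendsto_ofReal tendsto_id
    rw [ENNReal.ofReal_zero] at this
    exact this.mono_left nhdsWithin_le_nhds
  have hlim : Tendsto (fun ε : ℝ => (A + ENNReal.ofReal ε) * (B + ENNReal.ofReal ε)) (𝓝[>] 0)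
      (𝓝 ((A + 0) * (B + 0))) :=
    ENNReal.Tendsto.mul (tendsto_const_nhds.add h0) (Or.inr (by finiteness))
      (tendsto_const_nhds.add h0) (Or.inr (by finiteness))
  rw [add_zero, add_zero] at hlim
  exact ge_of_tendsto hlim (by filter_upwards [self_mem_nhdsWithin] with ε hε using key ε hε)

/-- The lower bound for quadrilaterals. -/
theorem quad_lower (φ : C(I × I, X)) (hφ : Function.Injective φ) (hfin : μH[2] (range φ) ≠ ∞) :
    1 ≤ LMod ((μH[2] : Measure X).restrict (range φ)) (bottom φ) (top φ) (range φ) *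
      LMod ((μH[2] : Measure X).restrict (range φ)) (left φ) (right φ) (range φ) := by
  have hfm : IsFiniteMeasure ((μH[2] : Measure X).restrict (range φ)) :=
    ⟨by rw [Measure.restrict_apply_univ]; exact lt_top_iff_ne_top.2 hfin⟩
  obtain ⟨d, hd, h13, h24⟩ := sides_dist φ hφ
  have hM1 : LMod ((μH[2] : Measure X).restrict (range φ)) (bottom φ) (top φ) (range φ) ≠ ∞ :=
    LMod_ne_top hd h13
  have hM2 : LMod ((μH[2] : Measure X).restrict (range φ)) (left φ) (right φ) (range φ) ≠ ∞ :=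
    LMod_ne_top hd h24
  set ν : Measure X := (μH[2] : Measure X).restrict (range φ) with hν
  set M := LMod ν (bottom φ) (top φ) (range φ) with hM
  set M' := LMod ν (left φ) (right φ) (range φ) with hM'
  -- for every function of finite energy
  have h1 : ∀ ρ : X → ℝ≥0∞, Measurable ρ → LAdm (bottom φ) (top φ) (range φ) ρ →
      ∫⁻ x, ρ x ^ 2 ∂ν ≠ ∞ → 1 ≤ (∫⁻ x, ρ x ^ 2 ∂ν) * M' := by
    intro ρ hρ hρa hρf
    have h2 : ∀ g : X → ℝ≥0∞, Measurable g → LAdm (left φ) (right φ) (range φ) g →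
        (∫⁻ x, ρ x ^ 2 ∂ν)⁻¹ ≤ ∫⁻ x, g x ^ 2 ∂ν := by
      intro g hg hga
      rcases eq_or_ne (∫⁻ x, g x ^ 2 ∂ν) ∞ with h | h
      · rw [h]; exact le_top
      · have h3 := lower_meas φ hρ hg hρa hga hfin hρf h
        rw [ENNReal.inv_le_iff_le_mul (fun h4 => (h h4).elim) (fun h4 => (hρf h4).elim)]
        exact h3
    have h4 : (∫⁻ x, ρ x ^ 2 ∂ν)⁻¹ ≤ M' := le_iInf fun g => le_iInf fun hg => le_iInf fun hga =>
      h2 g hg hga
    have h5 : ∫⁻ x, ρ x ^ 2 ∂ν ≠ 0 := by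
      intro h6
      rw [h6, ENNReal.inv_zero, top_le_iff] at h4
      exact hM2 h4
    calc (1 : ℝ≥0∞) = (∫⁻ x, ρ x ^ 2 ∂ν) * (∫⁻ x, ρ x ^ 2 ∂ν)⁻¹ := (ENNReal.mul_inv_cancel h5 hρf).symm
      _ ≤ _ := by gcongr
  have hM'0 : M' ≠ 0 := by
    intro h2
    obtain ⟨ρ, hρ⟩ : ∃ ρ : X → ℝ≥0∞, Measurable ρ ∧ LAdm (bottom φ) (top φ) (range φ) ρ ∧
        ∫⁻ x, ρ x ^ 2 ∂ν ≠ ∞ := by
      by_contra hcon
      push Not at hcon
      exact hM1 (top_le_iff.1 (le_iInf fun ρ => le_iInf fun h3 => le_iInf fun h4 =>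
        (hcon ρ h3 h4).ge))
    have := h1 ρ hρ.1 hρ.2.1 hρ.2.2
    rw [h2, mul_zero] at this
    simp at this
  have h7 : M'⁻¹ ≤ M := by
    refine le_iInf fun ρ => le_iInf fun h3 => le_iInf fun h4 => ?_
    rcases eq_or_ne (∫⁻ x, ρ x ^ 2 ∂ν) ∞ with h | h
    · rw [h]; exact le_top
    · rw [ENNReal.inv_le_iff_le_mul (fun h5 => (h h5).elim) (fun h5 => (hM2 h5).elim), mul_comm]
      exact h1 ρ h3 h4 h
  calc (1 : ℝ≥0∞) = M'⁻¹ * M' := (ENNReal.inv_mul_cancel hM'0 hM2).symm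
    _ ≤ _ := by gcongr

end Pool.Agent.H250.MS
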