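import Mathlib
import Pool.Agent.H250.MS.Upper

/-!
The condition on the moduli of annuli.
-/

set_option autoImplicit false
set_option linter.unusedSectionVars false

open MeasureTheory Set Filter Topology Metric
open scoped ENNReal NNReal

namespace Pool.Agent.H250.MS

theorem vol_image_le {v : ℝ → ℝ} {S : Set ℝ} (hv : LipschitzOnWith 1 v S) :
    volume (v '' S) ≤ volume S := by
  have := hv.hausdorffMeasure_image_le (d := 1) zero_le_one
  rwa [hausdorffMeasure_real, ENNReal.coe_one, ENNReal.one_rpow, one_mul] at this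

variable {X : Type*} [MetricSpace X] [MeasurableSpace X] [BorelSpace X]

theorem ring_int {a : X} {s R r L : ℝ} {γ : ℝ → X} (hs : 0 < s) (hsR : s < R) (hr : r < s / 2)
    (hL : 0 ≤ L) (hγ : LipschitzWith 1 γ) (h0 : γ 0 ∈ closedBall a r) (h1 : γ L ∈ (ball a R)ᶜ) :
    1 ≤ ∫⁻ t in Icc 0 L, (ball a s ∩ (closedBall a (s / 2))ᶜ).indicator
      (fun _ => (ENNReal.ofReal (s / 2))⁻¹) (γ t) := by
  set D : ℝ → ℝ := fun t => dist (γ t) a with hD
  have hDl : LipschitzWith 1 D := by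
    have := (LipschitzWith.dist_left a).comp hγ
    rwa [one_mul] at this
  set S : Set ℝ := Icc 0 L ∩ D ⁻¹' (Ioo (s / 2) s) with hS
  have hSm : MeasurableSet S := measurableSet_Icc.inter (hDl.continuous.measurable measurableSet_Ioo)
  have hsub : Ioo (s / 2) s ⊆ D '' S := by
    intro y hy
    have hD0 : D 0 ≤ r := h0
    have hD1 : R ≤ D L := by
      have : ¬ dist (γ L) a < R := h1
      exact not_lt.1 this
    obtain ⟨t, ht, hty⟩ := intermediate_value_Icc hL hDl.continuous.continuousOn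
      (show y ∈ Icc (D 0) (D L) from ⟨by linarith [hy.1], by linarith [hy.2]⟩)
    exact ⟨t, ⟨ht, by rw [mem_preimage, hty]; exact hy⟩, hty⟩
  have hvol : ENNReal.ofReal (s / 2) ≤ volume S := by
    calc ENNReal.ofReal (s / 2) = volume (Ioo (s / 2) s) := by
          rw [Real.volume_Ioo]; congr 1; ring
      _ ≤ volume (D '' S) := measure_mono hsub
      _ ≤ volume S := vol_image_le (hDl.lipschitzOnWith (s := S))
  calc (1 : ℝ≥0∞) = (ENNReal.ofReal (s / 2))⁻¹ * ENNReal.ofReal (s / 2) := by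
        rw [ENNReal.inv_mul_cancel (ENNReal.ofReal_pos.2 (by positivity)).ne' ENNReal.ofReal_ne_top]
    _ ≤ (ENNReal.ofReal (s / 2))⁻¹ * volume S := by gcongr
    _ = ∫⁻ t in S, (ENNReal.ofReal (s / 2))⁻¹ := by rw [setLIntegral_const]
    _ ≤ ∫⁻ t in S, (ball a s ∩ (closedBall a (s / 2))ᶜ).indicator
          (fun _ => (ENNReal.ofReal (s / 2))⁻¹) (γ t) := by
        refine setLIntegral_mono' hSm fun t ht => ?_
        have h2 : γ t ∈ ball a s ∩ (closedBall a (s / 2))ᶜ :=
          ⟨ht.2.2, fun h3 => absurd (show dist (γ t) a ≤ s / 2 from h3) (not_le.2 ht.2.1)⟩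
        rw [indicator_of_mem h2]
    _ ≤ _ := lintegral_mono_set inter_subset_left

theorem r_two (μ : Measure X) {a : X} {n : ENNReal} (hn : n ≠ ∞)
    (h : ∃ᶠ r in 𝓝[>] (0:ℝ), μ (ball a r) ≤ n * ENNReal.ofReal (r ^ 2)) {R : ℝ} (hR : 0 < R) :
    Tendsto (fun r => LMod μ (closedBall a r) (ball a R)ᶜ univ) (𝓝[>] 0) (𝓝 0) := by
  classical
  have hex : ∀ s : ℝ, ∃ r : ℝ, 0 < s → 0 < r ∧ r < s ∧ μ (ball a r) ≤ n * ENNReal.ofReal (r ^ 2) := by
    intro s
    by_cases hs : 0 < s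
    · obtain ⟨r, hr1, hr2⟩ := (h.and_eventually (Ioo_mem_nhdsGT hs)).exists
      exact ⟨r, fun _ => ⟨hr2.1, hr2.2, hr1⟩⟩
    · exact ⟨0, fun h' => (hs h').elim⟩
  choose g hg using hex
  let f : ℕ → ℝ := fun k => Nat.rec (g R) (fun _ r => g (r / 2)) k
  have f0 : f 0 = g R := rfl
  have fs : ∀ k, f (k + 1) = g (f k / 2) := fun k => rfl
  have fpos : ∀ k, 0 < f k := by
    intro k
    induction k with
    | zero => rw [f0]; exact (hg R hR).1
    | succ k ih => rw [fs]; exact (hg _ (by positivity)).1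
  have flt : ∀ k, f (k + 1) < f k / 2 := by
    intro k; rw [fs]; exact (hg _ (by have := fpos k; positivity)).2.1
  have fμ : ∀ k, μ (ball a (f k)) ≤ n * ENNReal.ofReal (f k ^ 2) := by
    intro k
    cases k with
    | zero => rw [f0]; exact (hg R hR).2.2
    | succ k => rw [fs]; exact (hg _ (by have := fpos k; positivity)).2.2
  have fanti : StrictAnti f := strictAnti_nat_of_succ_lt fun k => by
    have := flt k; have := fpos k; linarith
  have fR : ∀ k, f k < R := fun k =>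
    (fanti.antitone (Nat.zero_le k)).trans_lt (by rw [f0]; exact (hg R hR).2.1)
  set A : ℕ → Set X := fun k => ball a (f k) ∩ (closedBall a (f k / 2))ᶜ with hA
  have hAm : ∀ k, MeasurableSet (A k) := fun k =>
    measurableSet_ball.inter measurableSet_closedBall.compl
  have hdisj : ∀ j k, j < k → ∀ x, x ∈ A j → x ∉ A k := by
    intro j k hjk x hxj hxk
    have h1 : dist x a < f k := hxk.1
    have h2 : ¬ dist x a ≤ f j / 2 := hxj.2
    have h3 : f k ≤ f (j + 1) := fanti.antitone hjk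
    have h4 := flt j
    exact h2 (by linarith)
  set u : ℕ → X → ℝ≥0∞ := fun k => (A k).indicator (fun _ => (ENNReal.ofReal (f k / 2))⁻¹) with hu
  have hum : ∀ k, Measurable (u k) := fun k => measurable_const.indicator (hAm k)
  have henergy : ∀ k, ∫⁻ x, u k x ^ 2 ∂μ ≤ 4 * n := by
    intro k
    have h1 : ∀ x, u k x ^ 2 = (A k).indicator (fun _ => ((ENNReal.ofReal (f k / 2))⁻¹) ^ 2) x := by
      intro x
      by_cases hx : x ∈ A k
      · simp only [hu, indicator_of_mem hx]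
      · simp only [hu, indicator_of_notMem hx]; simp
    simp only [h1]
    rw [lintegral_indicator_const (hAm k)]
    calc ((ENNReal.ofReal (f k / 2))⁻¹) ^ 2 * μ (A k) ≤
        ((ENNReal.ofReal (f k / 2))⁻¹) ^ 2 * (n * ENNReal.ofReal (f k ^ 2)) := by
          gcongr
          exact (measure_mono inter_subset_left).trans (fμ k)
      _ = 4 * n := by
          have h2 : (0:ℝ) < f k := fpos k
          rw [show f k ^ 2 = (f k / 2) ^ 2 * 4 by ring, ENNReal.ofReal_mul (by positivity),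
            ENNReal.ofReal_pow (by positivity)]
          have h3 : ENNReal.ofReal (f k / 2) ≠ 0 := (ENNReal.ofReal_pos.2 (by positivity)).ne'
          have h4 : ENNReal.ofReal (f k / 2) ≠ ∞ := ENNReal.ofReal_ne_top
          have h5 : ENNReal.ofReal 4 = 4 := by norm_num
          rw [h5]
          calc ((ENNReal.ofReal (f k / 2))⁻¹) ^ 2 * (n * (ENNReal.ofReal (f k / 2) ^ 2 * 4)) =
              ((ENNReal.ofReal (f k / 2))⁻¹ * ENNReal.ofReal (f k / 2)) ^ 2 * (4 * n) := by ring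
            _ = 4 * n := by rw [ENNReal.inv_mul_cancel h3 h4]; ring
  rw [ENNReal.tendsto_nhds_zero]
  intro ε hε
  obtain ⟨N, hN0, hN⟩ : ∃ N : ℕ, 0 < N ∧ 4 * n * (N : ℝ≥0∞)⁻¹ ≤ ε := by
    have h1 : Tendsto (fun N : ℕ => 4 * n * (N : ℝ≥0∞)⁻¹) atTop (𝓝 (4 * n * 0)) :=
      ENNReal.Tendsto.const_mul ENNReal.tendsto_inv_nat_nhds_zero (Or.inr (by finiteness))
    rw [mul_zero] at h1
    obtain ⟨N, hN1, hN2⟩ := ((h1.eventually_le_const hε).and (eventually_gt_atTop 0)).exists
    exact ⟨N, hN2, hN1⟩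
  have hNne : (N : ℝ≥0∞) ≠ 0 := by exact_mod_cast hN0.ne'
  filter_upwards [Ioo_mem_nhdsGT (fpos N)] with r hr
  have hadm : LAdm (closedBall a r) (ball a R)ᶜ univ
      (fun x => (N : ℝ≥0∞)⁻¹ * ∑ k ∈ Finset.range N, u k x) := by
    intro L γ hL hγ _ h0 h1
    have hm : ∀ k, Measurable fun t => u k (γ t) := fun k => (hum k).comp hγ.continuous.measurable
    rw [lintegral_const_mul _ (Finset.measurable_sum _ fun k _ => hm k),
      lintegral_finsetSum _ (fun k _ => hm k)]
    have h2 : ∀ k ∈ Finset.range N, (1 : ℝ≥0∞) ≤ ∫⁻ t in Icc 0 L, u k (γ t) := by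
      intro k hk
      refine ring_int (fpos k) (fR k) ?_ hL hγ h0 h1
      have h3 : f N ≤ f (k + 1) := fanti.antitone (Finset.mem_range.1 hk)
      have h4 := flt k
      linarith [hr.2]
    calc (1 : ℝ≥0∞) = (N : ℝ≥0∞)⁻¹ * N := (ENNReal.inv_mul_cancel hNne (ENNReal.natCast_ne_top N)).symm
      _ = (N : ℝ≥0∞)⁻¹ * ∑ k ∈ Finset.range N, (1 : ℝ≥0∞) := by simp
      _ ≤ _ := by gcongr with k hk; exact h2 k hk
  have hmeas : Measurable fun x => (N : ℝ≥0∞)⁻¹ * ∑ k ∈ Finset.range N, u k x :=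
    (Finset.measurable_sum _ fun k _ => hum k).const_mul _
  refine (LMod_le hmeas hadm).trans ?_
  have hsq : ∀ x, ((N : ℝ≥0∞)⁻¹ * ∑ k ∈ Finset.range N, u k x) ^ 2 =
      (N : ℝ≥0∞)⁻¹ ^ 2 * ∑ k ∈ Finset.range N, u k x ^ 2 := by
    intro x
    rw [mul_pow]
    congr 1
    by_cases hx : ∃ j ∈ Finset.range N, x ∈ A j
    · obtain ⟨j, hj, hxj⟩ := hx
      have h0 : ∀ k ∈ Finset.range N, k ≠ j → u k x = 0 := by
        intro k _ hkj
        refine indicator_of_notMem (fun hxk => ?_) _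
        rcases lt_or_gt_of_ne hkj with h' | h'
        · exact hdisj k j h' x hxk hxj
        · exact hdisj j k h' x hxj hxk
      rw [Finset.sum_eq_single_of_mem j hj h0, Finset.sum_eq_single_of_mem j hj
        (fun k hk hkj => by rw [h0 k hk hkj]; simp)]
    · push Not at hx
      have h0 : ∀ k ∈ Finset.range N, u k x = 0 := fun k hk => indicator_of_notMem (hx k hk) _
      rw [Finset.sum_eq_zero h0, Finset.sum_eq_zero (fun k hk => by rw [h0 k hk]; simp)]
      simp
  simp only [hsq]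
  rw [lintegral_const_mul _ (Finset.measurable_sum _ fun k _ => (hum k).pow_const 2),
    lintegral_finsetSum _ (fun k _ => (hum k).pow_const 2)]
  calc (N : ℝ≥0∞)⁻¹ ^ 2 * ∑ k ∈ Finset.range N, ∫⁻ x, u k x ^ 2 ∂μ ≤
      (N : ℝ≥0∞)⁻¹ ^ 2 * ∑ k ∈ Finset.range N, 4 * n := by
        gcongr with k hk; exact henergy k
    _ = ((N : ℝ≥0∞)⁻¹ * N) * (4 * n * (N : ℝ≥0∞)⁻¹) := by
        rw [Finset.sum_const, Finset.card_range, nsmul_eq_mul]; ring
    _ = 4 * n * (N : ℝ≥0∞)⁻¹ := by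
        rw [ENNReal.inv_mul_cancel hNne (ENNReal.natCast_ne_top N), one_mul]
    _ ≤ ε := hN

end Pool.Agent.H250.MS
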