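import Mathlib
import Pool.Agent.H250.MS.RTwo
import Pool.Agent.H250.MS.Low3

/-!
Rectifiable curves, line integrals and moduli, and the comparison with the modulus defined by
globally Lipschitz maps of the line.
-/

set_option autoImplicit false
set_option linter.unusedSectionVars false

open MeasureTheory Set Filter Topology Metric
open scoped ENNReal NNReal

namespace Pool.Agent.H250.MS

variable {X : Type*} [MetricSpace X]

/-- The restriction of `γ` to `[a,b]` is a rectifiable curve. -/
structure RectCurve (γ : ℝ → X) (a b : ℝ) : Prop where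
  le : a ≤ b
  cont : ContinuousOn γ (Icc a b)
  rect : eVariationOn γ (Icc a b) ≠ ∞

/-- The line integral of `ρ` along the restriction of `γ` to `[a,b]`, that is the integral over
`[0,ℓ]`, with `ℓ` the length, of the composition of `ρ` with the parametrisation by arc length. -/
noncomputable def lineInt (ρ : X → ℝ≥0∞) (γ : ℝ → X) (a b : ℝ) : ℝ≥0∞ :=
  ∫⁻ u in Icc 0 (eVariationOn γ (Icc a b)).toReal, ρ (naturalParameterization γ (Icc a b) a u)

/-- Admissibility for the family of the rectifiable curves in `G` from `E` to `F`. -/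
def Adm (E F G : Set X) (ρ : X → ℝ≥0∞) : Prop :=
  ∀ (γ : ℝ → X) (a b : ℝ), RectCurve γ a b → (∀ t ∈ Icc a b, γ t ∈ G) → γ a ∈ E → γ b ∈ F →
    1 ≤ lineInt ρ γ a b

section

variable {γ : ℝ → X} {a b : ℝ}

/-- the length function -/
noncomputable def len (γ : ℝ → X) (a b t : ℝ) : ℝ := variationOnFromTo γ (Icc a b) a t

theorem RectCurve.loc (h : RectCurve γ a b) : LocallyBoundedVariationOn γ (Icc a b) :=
  BoundedVariationOn.locallyBoundedVariationOn h.rect

theorem RectCurve.amem (h : RectCurve γ a b) : a ∈ Icc a b := ⟨le_rfl, h.le⟩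

theorem RectCurve.bmem (h : RectCurve γ a b) : b ∈ Icc a b := ⟨h.le, le_rfl⟩

theorem len_a : len γ a b a = 0 := variationOnFromTo.self _ _ _

theorem len_b (h : RectCurve γ a b) : len γ a b b = (eVariationOn γ (Icc a b)).toReal := by
  unfold len
  rw [variationOnFromTo.eq_of_le _ _ h.le, inter_self]

theorem len_sub (h : RectCurve γ a b) {s t : ℝ} (hs : s ∈ Icc a b) (ht : t ∈ Icc a b) (hst : s ≤ t) :
    len γ a b t - len γ a b s = (eVariationOn γ (Icc s t)).toReal := by
  have h1 := variationOnFromTo.add h.loc h.amem hs ht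
  have h2 := variationOnFromTo.eq_of_le γ (Icc a b) hst
  have h3 : Icc a b ∩ Icc s t = Icc s t := by
    ext x; simp only [mem_inter_iff, mem_Icc] at *
    constructor
    · intro h; exact h.2
    · intro h; exact ⟨⟨hs.1.trans h.1, h.2.trans ht.2⟩, h⟩
  rw [h3] at h2
  unfold len
  linarith

theorem RectCurve.sub_ne_top (h : RectCurve γ a b) {s t : ℝ} (hs : s ∈ Icc a b) (ht : t ∈ Icc a b) :
    eVariationOn γ (Icc s t) ≠ ∞ :=
  ne_top_of_le_ne_top h.rect (eVariationOn.mono γ (Icc_subset_Icc hs.1 ht.2))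

theorem len_mono (h : RectCurve γ a b) {s t : ℝ} (hs : s ∈ Icc a b) (ht : t ∈ Icc a b)
    (hst : s ≤ t) : len γ a b s ≤ len γ a b t := by
  have := len_sub h hs ht hst
  have h2 : 0 ≤ (eVariationOn γ (Icc s t)).toReal := ENNReal.toReal_nonneg
  linarith

theorem dist_le_len (h : RectCurve γ a b) {s t : ℝ} (hs : s ∈ Icc a b) (ht : t ∈ Icc a b) :
    dist (γ s) (γ t) ≤ |len γ a b s - len γ a b t| := by
  wlog hst : s ≤ t generalizing s t
  · have := this ht hs (not_le.1 hst).le
    rwa [dist_comm, abs_sub_comm] at this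
  have h1 := len_sub h hs ht hst
  have h2 : edist (γ s) (γ t) ≤ eVariationOn γ (Icc s t) :=
    eVariationOn.edist_le _ ⟨le_rfl, hst⟩ ⟨hst, le_rfl⟩
  rw [abs_sub_comm, h1, abs_of_nonneg ENNReal.toReal_nonneg, dist_edist]
  exact ENNReal.toReal_mono (h.sub_ne_top hs ht) h2

theorem len_continuousOn (h : RectCurve γ a b) : ContinuousOn (len γ a b) (Icc a b) := by
  intro x hx
  have hbv : BoundedVariationOn γ (Icc a b) := h.rect
  have hl : Tendsto (fun y => (eVariationOn γ (Icc a b ∩ Icc y x)).toReal) (𝓝[Icc a b] x) (𝓝 0) := by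
    have := hbv.tendsto_eVariationOn_Icc_zero_left (x := x) ((h.cont x hx).mono inter_subset_left)
    have h2 := (ENNReal.tendsto_toReal ENNReal.zero_ne_top).comp this
    rw [ENNReal.toReal_zero] at h2
    exact h2
  have hr : Tendsto (fun y => (eVariationOn γ (Icc a b ∩ Icc x y)).toReal) (𝓝[Icc a b] x) (𝓝 0) := by
    have := hbv.tendsto_eVariationOn_Icc_zero_right x ((h.cont x hx).mono inter_subset_left)
    have h2 := (ENNReal.tendsto_toReal ENNReal.zero_ne_top).comp this
    rw [ENNReal.toReal_zero] at h2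
    exact h2
  have hsum := hl.add hr
  rw [add_zero] at hsum
  rw [ContinuousWithinAt, tendsto_iff_dist_tendsto_zero]
  refine squeeze_zero' (Eventually.of_forall fun _ => dist_nonneg) ?_ hsum
  filter_upwards [self_mem_nhdsWithin] with y hy
  have hI : ∀ {s t : ℝ}, s ∈ Icc a b → t ∈ Icc a b → Icc a b ∩ Icc s t = Icc s t := by
    intro s t hs ht
    exact inter_eq_right.2 (Icc_subset_Icc hs.1 ht.2)
  rw [hI hy hx, hI hx hy, Real.dist_eq]
  rcases le_total x y with hxy | hxy
  · rw [len_sub h hx hy hxy, abs_of_nonneg ENNReal.toReal_nonneg]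
    have : 0 ≤ (eVariationOn γ (Icc y x)).toReal := ENNReal.toReal_nonneg
    linarith
  · rw [abs_sub_comm, len_sub h hy hx hxy, abs_of_nonneg ENNReal.toReal_nonneg]
    have : 0 ≤ (eVariationOn γ (Icc x y)).toReal := ENNReal.toReal_nonneg
    linarith

theorem len_image (h : RectCurve γ a b) :
    len γ a b '' Icc a b = Icc 0 (eVariationOn γ (Icc a b)).toReal := by
  apply Subset.antisymm
  · rintro _ ⟨t, ht, rfl⟩
    constructor
    · rw [← len_a (γ := γ) (a := a) (b := b)]; exact len_mono h h.amem ht ht.1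
    · rw [← len_b h]; exact len_mono h ht h.bmem ht.2
  · have := intermediate_value_Icc h.le (len_continuousOn h)
    rwa [len_a, len_b h] at this

theorem nat_len (h : RectCurve γ a b) {t : ℝ} (ht : t ∈ Icc a b) :
    naturalParameterization γ (Icc a b) a (len γ a b t) = γ t := by
  have := edist_naturalParameterization_eq_zero h.loc h.amem ht
  exact edist_eq_zero.1 this

theorem lip_cl (L : ℝ) : LipschitzWith 1 (cl L) := by
  have := (LipschitzWith.id (α := ℝ)).min_const L
  exact this.const_max 0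

/-- the parametrisation by arc length, extended to the line -/
noncomputable def arc (γ : ℝ → X) (a b : ℝ) : ℝ → X := fun u =>
  naturalParameterization γ (Icc a b) a (cl (eVariationOn γ (Icc a b)).toReal u)

theorem arc_lip (h : RectCurve γ a b) : LipschitzWith 1 (arc γ a b) := by
  refine LipschitzWith.of_dist_le_mul fun u v => ?_
  rw [NNReal.coe_one, one_mul]
  have hu := cl_mem (L := (eVariationOn γ (Icc a b)).toReal) ENNReal.toReal_nonneg u
  have hv := cl_mem (L := (eVariationOn γ (Icc a b)).toReal) ENNReal.toReal_nonneg v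
  rw [← len_image h] at hu hv
  obtain ⟨s, hs, hsu⟩ := hu
  obtain ⟨t, ht, htv⟩ := hv
  have h1 := (lip_cl (eVariationOn γ (Icc a b)).toReal).dist_le_mul u v
  rw [NNReal.coe_one, one_mul, Real.dist_eq, ← hsu, ← htv] at h1
  unfold arc
  rw [← hsu, ← htv, nat_len h hs, nat_len h ht]
  exact (dist_le_len h hs ht).trans h1

theorem arc_len (h : RectCurve γ a b) {t : ℝ} (ht : t ∈ Icc a b) :
    arc γ a b (len γ a b t) = γ t := by
  have h1 : len γ a b t ∈ Icc 0 (eVariationOn γ (Icc a b)).toReal := by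
    rw [← len_image h]; exact mem_image_of_mem _ ht
  unfold arc
  rw [cl_of_mem h1, nat_len h ht]

theorem lineInt_eq (ρ : X → ℝ≥0∞) (γ : ℝ → X) (a b : ℝ) :
    lineInt ρ γ a b = ∫⁻ u in Icc 0 (eVariationOn γ (Icc a b)).toReal, ρ (arc γ a b u) := by
  unfold lineInt
  refine setLIntegral_congr_fun measurableSet_Icc fun u hu => ?_
  simp only [arc, cl_of_mem hu]

end

theorem adm_of_ladm {E F G : Set X} {ρ : X → ℝ≥0∞} (h : LAdm E F G ρ) : Adm E F G ρ := by
  intro γ a b hγ hG h0 h1
  rw [lineInt_eq]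
  refine h _ _ ENNReal.toReal_nonneg (arc_lip hγ) ?_ ?_ ?_
  · intro u hu
    rw [← len_image hγ] at hu
    obtain ⟨t, ht, rfl⟩ := hu
    rw [arc_len hγ ht]; exact hG t ht
  · rw [← len_a (γ := γ) (a := a) (b := b), arc_len hγ hγ.amem]; exact h0
  · rw [← len_b hγ, arc_len hγ hγ.bmem]; exact h1

variable [MeasurableSpace X] [BorelSpace X]

theorem ladm_of_adm {E F G : Set X} {ρ : X → ℝ≥0∞} (hρ : Measurable ρ) (h : Adm E F G ρ) :
    LAdm E F G ρ := by
  intro L γ hL hγ hG h0 h1
  have hvar : ∀ s t : ℝ, s ≤ t → eVariationOn γ (Icc s t) ≤ ENNReal.ofReal (t - s) := by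
    intro s t hst
    have h2 := (hγ.lipschitzOnWith (s := univ)).comp_eVariationOn_le (g := id) (s := Icc s t)
      (fun _ _ => mem_univ _)
    rw [ENNReal.coe_one, one_mul, eVariationOn_id_Icc] at h2
    exact h2
  have hc : RectCurve γ 0 L :=
    ⟨hL, hγ.continuous.continuousOn, ne_top_of_le_ne_top ENNReal.ofReal_ne_top (hvar 0 L hL)⟩
  refine (h γ 0 L hc hG h0 h1).trans ?_
  rw [lineInt_eq]
  set ℓ := (eVariationOn γ (Icc 0 L)).toReal with hℓ
  have hlip : LipschitzOnWith 1 (len γ 0 L) (Icc 0 L) := by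
    refine LipschitzOnWith.of_dist_le_mul fun s hs t ht => ?_
    rw [NNReal.coe_one, one_mul, Real.dist_eq, Real.dist_eq]
    have key : ∀ s ∈ Icc 0 L, ∀ t ∈ Icc 0 L, s ≤ t → |len γ 0 L s - len γ 0 L t| ≤ |s - t| := by
      intro s hs t ht hst
      rw [abs_sub_comm, len_sub hc hs ht hst, abs_of_nonneg ENNReal.toReal_nonneg, abs_sub_comm,
        abs_of_nonneg (by linarith)]
      exact ENNReal.toReal_le_of_le_ofReal (by linarith) (hvar s t hst)
    rcases le_total s t with hst | hst
    · exact key s hs t ht hst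
    · rw [abs_sub_comm, abs_sub_comm s t]; exact key t ht s hs hst
  -- the push forward of the length measure
  have hwm : Measurable fun t => len γ 0 L (cl L t) := by
    have h2 : Continuous fun t => len γ 0 L (cl L t) := by
      rw [← continuousOn_univ]
      exact (len_continuousOn hc).comp (continuous_cl L).continuousOn fun t _ => cl_mem hL t
    exact h2.measurable
  have hμ : volume.restrict (Icc 0 ℓ) ≤
      Measure.map (fun t => len γ 0 L (cl L t)) (volume.restrict (Icc 0 L)) := by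
    refine Measure.le_iff.2 fun A hA => ?_
    rw [Measure.map_apply hwm hA, Measure.restrict_apply hA, Measure.restrict_apply (hwm hA)]
    have hsub : A ∩ Icc 0 ℓ ⊆ len γ 0 L '' ((fun t => len γ 0 L (cl L t)) ⁻¹' A ∩ Icc 0 L) := by
      rintro u ⟨huA, hu⟩
      rw [hℓ, ← len_image hc] at hu
      obtain ⟨t, ht, rfl⟩ := hu
      refine ⟨t, ⟨?_, ht⟩, rfl⟩
      rw [mem_preimage, cl_of_mem ht]; exact huA
    exact (measure_mono hsub).trans (vol_image_le (hlip.mono inter_subset_right))
  calc ∫⁻ u in Icc 0 ℓ, ρ (arc γ 0 L u) ≤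
      ∫⁻ u, ρ (arc γ 0 L u) ∂(Measure.map (fun t => len γ 0 L (cl L t)) (volume.restrict (Icc 0 L))) :=
        lintegral_mono' hμ le_rfl
    _ = ∫⁻ t in Icc 0 L, ρ (arc γ 0 L (len γ 0 L (cl L t))) :=
        lintegral_map (hρ.comp (arc_lip hc).continuous.measurable) hwm
    _ = ∫⁻ t in Icc 0 L, ρ (γ t) := by
        refine setLIntegral_congr_fun measurableSet_Icc fun t ht => ?_
        simp only [cl_of_mem ht, arc_len hc ht]

/-- The 2-modulus of the family of the curves in `G` from `E` to `F`. -/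
noncomputable def Mod (μ : Measure X) (E F G : Set X) : ℝ≥0∞ :=
  ⨅ (ρ : X → ℝ≥0∞) (_ : Measurable ρ) (_ : Adm E F G ρ), ∫⁻ x, ρ x ^ 2 ∂μ

theorem mod_eq (μ : Measure X) (E F G : Set X) : Mod μ E F G = LMod μ E F G := by
  unfold Mod LMod
  refine iInf_congr fun ρ => iInf_congr fun hρ => ?_
  exact iInf_congr_Prop ⟨ladm_of_adm hρ, adm_of_ladm⟩ fun _ => rfl

theorem lmod_restrict (μ : Measure X) {E F G : Set X} (hG : MeasurableSet G) :
    LMod μ E F G = LMod (μ.restrict G) E F G := by
  apply le_antisymm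
  · refine le_iInf fun ρ => le_iInf fun hρ => le_iInf fun h => ?_
    have h1 : LAdm E F G (G.indicator ρ) := by
      intro L γ hL hγ hγG h0 h1
      refine (h L γ hL hγ hγG h0 h1).trans (setLIntegral_mono' measurableSet_Icc fun t ht => ?_)
      rw [indicator_of_mem (hγG t ht)]
    refine (LMod_le (hρ.indicator hG) h1).trans (le_of_eq ?_)
    rw [← lintegral_indicator hG]
    congr 1; funext x
    by_cases hx : x ∈ G
    · simp only [indicator_of_mem hx]
    · simp only [indicator_of_notMem hx]; simp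
  · refine le_iInf fun ρ => le_iInf fun hρ => le_iInf fun h => ?_
    exact (LMod_le hρ h).trans (lintegral_mono' Measure.restrict_le_self le_rfl)

theorem lmod_smul (c : ℝ≥0) (hc : c ≠ 0) (μ : Measure X) (E F G : Set X) :
    LMod (c • μ) E F G = c * LMod μ E F G := by
  have hc' : (c : ℝ≥0∞) ≠ 0 := by exact_mod_cast hc
  have h1 : ∀ f : X → ℝ≥0∞, ∫⁻ x, f x ∂(c • μ) = c * ∫⁻ x, f x ∂μ := by
    intro f
    rw [lintegral_smul_measure]
    rfl
  unfold LMod
  simp only [h1]
  rw [ENNReal.mul_iInf_of_ne hc' ENNReal.coe_ne_top]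
  refine iInf_congr fun ρ => ?_
  rw [ENNReal.mul_iInf_of_ne hc' ENNReal.coe_ne_top]
  refine iInf_congr fun hρ => ?_
  rw [ENNReal.mul_iInf_of_ne hc' ENNReal.coe_ne_top]

end Pool.Agent.H250.MS
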